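import Mathlib

set_option autoImplicit false

namespace Run7.h246

/-- `Pk n B D k x y`: the element `(x + y sqrt(-D))/2` has norm `2^k` and lies in the `k`-th
power of the prime above `2` singled out by `B`. -/
def Pk (B D : ℤ) (k : ℕ) (x y : ℤ) : Prop :=
  x ^ 2 + D * y ^ 2 = 2 ^ (k + 2) ∧ (2 : ℤ) ^ (k + 1) ∣ x - B * y

/-- companion sequences -/
def VU (P Q : ℤ) : ℕ → ℤ × ℤ
  | 0 => (2, 0)
  | 1 => (P, 1)
  | (m + 2) => (P * (VU P Q (m + 1)).1 - Q * (VU P Q m).1,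
      P * (VU P Q (m + 1)).2 - Q * (VU P Q m).2)

theorem VU_coupled (P Q E : ℤ) (h : P ^ 2 + E = 4 * Q) (m : ℕ) :
    2 * (VU P Q (m + 1)).1 = P * (VU P Q m).1 - E * (VU P Q m).2 ∧
    2 * (VU P Q (m + 1)).2 = P * (VU P Q m).2 + (VU P Q m).1 := by
  induction m using Nat.strong_induction_on with
  | _ m ih =>
    match m with
    | 0 => simp [VU]; ring
    | 1 =>
      simp only [VU]
      constructor
      · linear_combination h
      · ring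
    | (m + 2) =>
      obtain ⟨h1, h2⟩ := ih m (by omega)
      obtain ⟨h3, h4⟩ := ih (m + 1) (by omega)
      have e1 : (VU P Q (m + 2 + 1)).1 = P * (VU P Q (m + 2)).1 - Q * (VU P Q (m + 1)).1 := rfl
      have e2 : (VU P Q (m + 2 + 1)).2 = P * (VU P Q (m + 2)).2 - Q * (VU P Q (m + 1)).2 := rfl
      have e3 : (VU P Q (m + 2)).1 = P * (VU P Q (m + 1)).1 - Q * (VU P Q m).1 := rfl
      have e4 : (VU P Q (m + 2)).2 = P * (VU P Q (m + 1)).2 - Q * (VU P Q m).2 := rfl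
      have e5 : (VU P Q (m + 1 + 1)).1 = (VU P Q (m + 2)).1 := rfl
      have e6 : (VU P Q (m + 1 + 1)).2 = (VU P Q (m + 2)).2 := rfl
      rw [e5] at h3
      rw [e6] at h4
      constructor
      · linear_combination 2 * e1 + P * h3 - Q * h1 - P * e3 + E * e4
      · linear_combination 2 * e2 + P * h4 - Q * h2 - P * e4 - e3

/-- an element of `P^k`, `k ≥ 1`, of norm `2^k` has odd coordinates -/
theorem Pk_odd (B D : ℤ) (hD : Odd D) (k : ℕ) (hk : 1 ≤ k) (x y : ℤ)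
    (hB : (2 : ℤ) ^ (k + 1) ∣ B ^ 2 + D) (h : Pk B D k x y) : Odd x ∧ Odd y := by
  obtain ⟨h1, h2⟩ := h
  obtain ⟨j, rfl⟩ : ∃ j, k = j + 1 := ⟨k - 1, by omega⟩
  rcases Int.even_or_odd x with hx | hx
  · exfalso
    have hy : Even y := by
      by_contra hy
      rw [Int.not_even_iff_odd] at hy
      have : Odd (x ^ 2 + D * y ^ 2) := by
        apply Even.add_odd
        · exact (Int.even_pow.2 ⟨hx, by norm_num⟩)
        · exact hD.mul hy.pow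
      rw [h1] at this
      have h8 : Even ((2 : ℤ) ^ (j + 1 + 2)) := by
        rw [pow_succ]; exact even_two.mul_left _
      exact (Int.not_even_iff_odd.2 this) h8
    obtain ⟨x1, rfl⟩ := hx
    obtain ⟨y1, rfl⟩ := hy
    have h3 : x1 ^ 2 + D * y1 ^ 2 = 2 ^ (j + 1) := by
      have : (2 : ℤ) ^ (j + 1 + 2) = 4 * 2 ^ (j + 1) := by ring
      rw [this] at h1
      linarith [h1, sq_nonneg x1]
    have h4 : (2 : ℤ) ^ (j + 1) ∣ x1 - B * y1 := by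
      have : (2 : ℤ) ^ (j + 1 + 1) = 2 * 2 ^ (j + 1) := by ring
      rw [this, show x1 + x1 - B * (y1 + y1) = 2 * (x1 - B * y1) by ring] at h2
      exact Int.dvd_of_mul_dvd_mul_left (by norm_num) h2
    obtain ⟨s, hs⟩ := h4
    obtain ⟨t, ht⟩ := hB
    have hx1 : x1 = B * y1 + 2 ^ (j + 1) * s := by linarith
    have h5 : (2 : ℤ) ^ (j + 1) = 2 ^ (j + 2) * (t * y1 ^ 2 + B * y1 * s + 2 ^ j * s ^ 2) := by
      rw [← h3, hx1]
      have e1 : (2 : ℤ) ^ (j + 1 + 1) = 4 * 2 ^ j := by ring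
      have e2 : (2 : ℤ) ^ (j + 1) = 2 * 2 ^ j := by ring
      have e3 : (2 : ℤ) ^ (j + 2) = 4 * 2 ^ j := by ring
      rw [e1] at ht
      rw [e2, e3]
      linear_combination y1 ^ 2 * ht
    have h6 : (2 : ℤ) ^ (j + 1) * (2 * (t * y1 ^ 2 + B * y1 * s + 2 ^ j * s ^ 2) - 1) = 0 := by
      have e3 : (2 : ℤ) ^ (j + 2) = 2 * 2 ^ (j + 1) := by ring
      rw [e3] at h5
      linear_combination -h5
    have h7 : (2 : ℤ) ^ (j + 1) ≠ 0 := by positivity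
    rcases mul_eq_zero.1 h6 with h | h
    · exact h7 h
    · omega
  · refine ⟨hx, ?_⟩
    by_contra hy
    rw [Int.not_odd_iff_even] at hy
    have : Odd (x ^ 2 + D * y ^ 2) := by
      apply Odd.add_even hx.pow
      exact (Int.even_pow.2 ⟨hy, by norm_num⟩).mul_left _
    rw [h1] at this
    have h8 : Even ((2 : ℤ) ^ (j + 1 + 2)) := by
      rw [pow_succ]; exact even_two.mul_left _
    exact (Int.not_even_iff_odd.2 this) h8

/-- the quotient of two such elements -/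
theorem Pk_quot (B D : ℤ) (hBo : Odd B) (k k0 : ℕ) (hk : k0 ≤ k)
    (hB : (2 : ℤ) ^ (k + 2) ∣ B ^ 2 + D)
    (x y x0 y0 : ℤ) (hy0 : Odd y0) (hx0 : Odd x0) (h : Pk B D k x y) (h0 : Pk B D k0 x0 y0) :
    ∃ x' y' : ℤ, Pk B D (k - k0) x' y' ∧ 2 ^ (k0 + 1) * x' = x * x0 + D * y * y0 ∧
      2 ^ (k0 + 1) * y' = x0 * y - x * y0 := by
  obtain ⟨j, rfl⟩ : ∃ j, k = k0 + j := ⟨k - k0, by omega⟩
  obtain ⟨h1, s, hs⟩ := h
  obtain ⟨g1, s0, hs0⟩ := h0
  obtain ⟨t, ht⟩ := hB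
  have hx : x = B * y + 2 ^ (k0 + j + 1) * s := by linarith
  have hx0' : x0 = B * y0 + 2 ^ (k0 + 1) * s0 := by linarith
  have e1 : (2 : ℤ) ^ (k0 + j + 1) = 2 ^ (k0 + 1) * 2 ^ j := by ring
  have e2 : (2 : ℤ) ^ (k0 + j + 2) = 2 ^ (k0 + 1) * (2 * 2 ^ j) := by ring
  rw [e1] at hx
  rw [e2] at ht
  refine ⟨2 * 2 ^ j * t * y * y0 + B * y * s0 + B * y0 * 2 ^ j * s
    + 2 ^ (k0 + 1) * 2 ^ j * s * s0, y * s0 - 2 ^ j * s * y0, ⟨?_, ?_⟩, ?_, ?_⟩
  · -- norm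
    have hX : (2 : ℤ) ^ (k0 + 1) * (2 * 2 ^ j * t * y * y0 + B * y * s0 + B * y0 * 2 ^ j * s
        + 2 ^ (k0 + 1) * 2 ^ j * s * s0) = x * x0 + D * y * y0 := by
      rw [hx, hx0']
      linear_combination (-y * y0) * ht
    have hY : (2 : ℤ) ^ (k0 + 1) * (y * s0 - 2 ^ j * s * y0) = x0 * y - x * y0 := by
      rw [hx, hx0']; ring
    have hN : ((2 : ℤ) ^ (k0 + 1)) ^ 2 * ((2 * 2 ^ j * t * y * y0 + B * y * s0 + B * y0 * 2 ^ j * s
        + 2 ^ (k0 + 1) * 2 ^ j * s * s0) ^ 2 + D * (y * s0 - 2 ^ j * s * y0) ^ 2)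
        = ((2 : ℤ) ^ (k0 + 1)) ^ 2 * 2 ^ (k0 + j - k0 + 2) := by
      have e3 : k0 + j - k0 = j := by omega
      rw [e3]
      have e4 : ((2 : ℤ) ^ (k0 + 1)) ^ 2 * 2 ^ (j + 2) = 2 ^ (k0 + j + 2) * 2 ^ (k0 + 2) := by ring
      rw [e4, ← h1, ← g1]
      calc _ = ((2 : ℤ) ^ (k0 + 1) * (2 * 2 ^ j * t * y * y0 + B * y * s0 + B * y0 * 2 ^ j * s
        + 2 ^ (k0 + 1) * 2 ^ j * s * s0)) ^ 2 + D * ((2 : ℤ) ^ (k0 + 1) *
          (y * s0 - 2 ^ j * s * y0)) ^ 2 := by ring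
        _ = (x * x0 + D * y * y0) ^ 2 + D * (x0 * y - x * y0) ^ 2 := by rw [hX, hY]
        _ = _ := by ring
    exact mul_left_cancel₀ (by positivity) hN
  · -- orientation
    have e3 : k0 + j - k0 = j := by omega
    rw [e3]
    obtain ⟨b, hb⟩ := hBo
    obtain ⟨y1, hy1⟩ := hy0
    -- x0 + B y0 is even
    have hev : ∃ w : ℤ, x0 + B * y0 = 2 * w := by
      obtain ⟨x1, hx1⟩ := hx0
      exact ⟨x1 + b * y0 + y1 + 1, by rw [hx1, hb, hy1]; ring⟩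
    obtain ⟨w, hw⟩ := hev
    refine ⟨t * y * y0 + w * s, ?_⟩
    have e5 : (2 : ℤ) ^ (k0 + 1) ≠ 0 := by positivity
    apply mul_left_cancel₀ e5
    have hw' : 2 ^ (k0 + 1) * s0 = 2 * w - 2 * B * y0 := by linarith
    linear_combination (2 ^ (k0 + 1) * 2 ^ j * s) * hw'
  · rw [hx, hx0']
    linear_combination (-y * y0) * ht
  · rw [hx, hx0']; ring

end Run7.h246
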