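import Mathlib
import Pool.Agent.Run7.h246.OrdA

set_option autoImplicit false

namespace Run7.h246

/-- every element of norm `2^k` in `P^k` is up to sign a power of the basic one -/
theorem Pk_structure (B D : ℤ) (n : ℕ) (hD7 : 7 ≤ D) (hDo : Odd D) (hBo : Odd B)
    (hB : (2 : ℤ) ^ n ∣ B ^ 2 + D)
    (k0 : ℕ) (hk0 : 1 ≤ k0) (x0 y0 : ℤ) (h0 : Pk B D k0 x0 y0) (hx0 : Odd x0) (hy0 : Odd y0)
    (hmin : ∀ k : ℕ, 1 ≤ k → k < k0 → ∀ x y : ℤ, Odd x → Odd y → ¬ Pk B D k x y)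
    (k : ℕ) : k + 2 ≤ n → ∀ x y : ℤ, Pk B D k x y →
      ∃ m : ℕ, k = k0 * m ∧ ∃ e : ℤ, (e = 1 ∨ e = -1) ∧
        x = e * (VU x0 (2 ^ k0) m).1 ∧ y = e * y0 * (VU x0 (2 ^ k0) m).2 := by
  induction k using Nat.strong_induction_on with
  | _ k ih =>
    intro hkn x y hxy
    rcases Nat.eq_zero_or_pos k with rfl | hkpos
    · refine ⟨0, by simp, ?_⟩
      obtain ⟨h1, h2⟩ := hxy
      have hy : y = 0 := by
        by_contra hy
        have h3 : 1 ≤ y ^ 2 := by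
          have := sq_pos_of_ne_zero hy
          omega
        have h4 : (2 : ℤ) ^ (0 + 2) = 4 := by norm_num
        rw [h4] at h1
        nlinarith [sq_nonneg x, mul_nonneg (sub_nonneg.2 hD7) (sq_nonneg y)]
      subst hy
      have hx : (x - 2) * (x + 2) = 0 := by
        norm_num at h1
        linear_combination h1
      rcases mul_eq_zero.1 hx with h | h
      · exact ⟨1, Or.inl rfl, by simp [VU]; omega, by simp [VU]⟩
      · exact ⟨-1, Or.inr rfl, by simp [VU]; omega, by simp [VU]⟩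
    · have hBk1 : (2 : ℤ) ^ (k + 1) ∣ B ^ 2 + D :=
        (pow_dvd_pow 2 (by omega)).trans hB
      have hBk2 : (2 : ℤ) ^ (k + 2) ∣ B ^ 2 + D :=
        (pow_dvd_pow 2 (by omega)).trans hB
      obtain ⟨hxo, hyo⟩ := Pk_odd B D hDo k hkpos x y hBk1 hxy
      have hk0k : k0 ≤ k := by
        by_contra hlt
        exact hmin k hkpos (by omega) x y hxo hyo hxy
      obtain ⟨x', y', hP', hX, hY⟩ := Pk_quot B D hBo k k0 hk0k hBk2 x y x0 y0 hy0 hx0 hxy h0
      obtain ⟨m, hm, e, he, hx', hy'⟩ := ih (k - k0) (by omega) (by omega) x' y' hP'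
      have h00 := h0.1
      have h2x : 2 * x = x0 * x' - D * y0 * y' := by
        have hpos : (2 : ℤ) ^ (k0 + 1) ≠ 0 := by positivity
        apply mul_left_cancel₀ hpos
        have e2 : (2 : ℤ) ^ (k0 + 2) = 2 * 2 ^ (k0 + 1) := by ring
        rw [e2] at h00
        linear_combination (-x) * h00 - x0 * hX + D * y0 * hY
      have h2y : 2 * y = x0 * y' + y0 * x' := by
        have hpos : (2 : ℤ) ^ (k0 + 1) ≠ 0 := by positivity
        apply mul_left_cancel₀ hpos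
        have e2 : (2 : ℤ) ^ (k0 + 2) = 2 * 2 ^ (k0 + 1) := by ring
        rw [e2] at h00
        linear_combination (-y) * h00 - x0 * hY - y0 * hX
      have hE : x0 ^ 2 + D * y0 ^ 2 = 4 * 2 ^ k0 := by
        rw [h00]; ring
      obtain ⟨c1, c2⟩ := VU_coupled x0 (2 ^ k0) (D * y0 ^ 2) hE m
      refine ⟨m + 1, ?_, e, he, ?_, ?_⟩
      · rw [mul_add, mul_one, ← hm]; omega
      · have : 2 * x = 2 * (e * (VU x0 (2 ^ k0) (m + 1)).1) := by
          rw [h2x, hx', hy']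
          linear_combination -e * c1
        omega
      · have : 2 * y = 2 * (e * y0 * (VU x0 (2 ^ k0) (m + 1)).2) := by
          rw [h2y, hx', hy']
          linear_combination -e * y0 * c2
        linarith

theorem V_odd_dvd (P Q : ℤ) (m : ℕ) : P ∣ (VU P Q (2 * m + 1)).1 := by
  induction m with
  | zero => simp [VU]
  | succ m ih =>
    have e : (VU P Q (2 * (m + 1) + 1)).1 =
      P * (VU P Q (2 * m + 2)).1 - Q * (VU P Q (2 * m + 1)).1 := rfl
    rw [e]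
    exact dvd_sub (dvd_mul_right _ _) (ih.mul_left _)

theorem V_mod_sq (P Q : ℤ) (hP : P ^ 2 = 1) (m : ℕ) :
    Q ^ 2 ∣ (VU P Q (m + 2)).1 - P ^ (m + 2) * (1 - (m + 2 : ℕ) * Q) := by
  induction m using Nat.strong_induction_on with
  | _ m ih =>
    match m with
    | 0 =>
      have e : (VU P Q (0 + 2)).1 = P * P - Q * 2 := rfl
      rw [e]
      refine ⟨0, ?_⟩
      push_cast
      linear_combination (2 * Q) * hP
    | 1 =>
      have e : (VU P Q (1 + 2)).1 = P * (P * P - Q * 2) - Q * P := rfl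
      rw [e]
      refine ⟨0, ?_⟩
      push_cast
      linear_combination (3 * Q * P) * hP
    | (m + 2) =>
      obtain ⟨a, ha⟩ := ih m (by omega)
      obtain ⟨b, hb⟩ := ih (m + 1) (by omega)
      have e : (VU P Q (m + 2 + 2)).1 =
        P * (VU P Q (m + 1 + 2)).1 - Q * (VU P Q (m + 2)).1 := rfl
      rw [e]
      refine ⟨P * b - Q * a + (m + 2) * P ^ (m + 2), ?_⟩
      push_cast at ha hb ⊢
      linear_combination P * hb - Q * ha + (P ^ (m + 2) * Q) * hP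

theorem V_mod_eight (P : ℤ) (hP : P = 1 ∨ P = -1) (m : ℕ) :
    (VU P 2 (2 * m + 3)).1 % 8 = (3 * P) % 8 ∧ (VU P 2 (2 * m + 4)).1 % 8 = 1 := by
  induction m with
  | zero =>
    have e1 : (VU P 2 (2 * 0 + 3)).1 = P * (P * P - 2 * 2) - 2 * P := rfl
    have e2 : (VU P 2 (2 * 0 + 4)).1 =
      P * (P * (P * P - 2 * 2) - 2 * P) - 2 * (P * P - 2 * 2) := rfl
    rw [e1, e2]
    rcases hP with rfl | rfl <;> norm_num
  | succ m ih =>
    obtain ⟨h1, h2⟩ := ih
    have e1 : (VU P 2 (2 * (m + 1) + 3)).1 =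
      P * (VU P 2 (2 * m + 4)).1 - 2 * (VU P 2 (2 * m + 3)).1 := rfl
    have e2 : (VU P 2 (2 * (m + 1) + 4)).1 =
      P * (VU P 2 (2 * (m + 1) + 3)).1 - 2 * (VU P 2 (2 * m + 4)).1 := rfl
    rcases hP with rfl | rfl
    · constructor <;> omega
    · constructor <;> omega

/-- uniqueness: the order of the prime above two is `n - 2` -/
theorem no_small (D v : ℤ) (n : ℕ) (hn : Odd n) (hn3 : 3 ≤ n) (hD : 0 < D)
    (h : 1 + D * v ^ 2 = 2 ^ n)
    (k : ℕ) (hk1 : 1 ≤ k) (hk : k + 2 < n) (x y : ℤ) (hx : Odd x) (hy : Odd y)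
    (hxy : x ^ 2 + D * y ^ 2 = 2 ^ (k + 2)) : False := by
  obtain ⟨n', rfl⟩ : ∃ n', n = n' + 3 := ⟨n - 3, by omega⟩
  -- parity facts
  have hDv : D * v ^ 2 = 8 * 2 ^ n' - 1 := by
    have : (2 : ℤ) ^ (n' + 3) = 8 * 2 ^ n' := by ring
    rw [this] at h; linarith
  have hvo : Odd v := by
    by_contra hv
    rw [Int.not_odd_iff_even] at hv
    obtain ⟨w, rfl⟩ := hv
    have : D * (w + w) ^ 2 = 2 * (2 * D * w ^ 2) := by ring
    omega
  have hDo : Odd D := by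
    by_contra hv
    rw [Int.not_odd_iff_even] at hv
    obtain ⟨w, rfl⟩ := hv
    have : (w + w) * v ^ 2 = 2 * (w * v ^ 2) := by ring
    omega
  have hD8 : D % 8 = 7 := by
    obtain ⟨w, hw⟩ := hvo
    have h1 : (8 : ℤ) ∣ v ^ 2 - 1 := by
      rw [hw]
      have h2 : (2 * w + 1) ^ 2 - 1 = 4 * (w * (w + 1)) := by ring
      rw [h2]
      obtain ⟨c, hc⟩ := Int.even_mul_succ_self w
      exact ⟨c, by rw [hc]; ring⟩
    obtain ⟨c, hc⟩ := h1
    have h3 : D * v ^ 2 = D + 8 * (D * c) := by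
      linear_combination D * hc
    omega
  have hD7 : 7 ≤ D := by omega
  -- the orientation B
  have hcop : IsCoprime v ((2 : ℤ) ^ (n' + 3)) := by
    apply IsCoprime.pow_right
    obtain ⟨w, hw⟩ := hvo
    exact ⟨1, -w, by rw [hw]; ring⟩
  obtain ⟨B, b, hB1⟩ := hcop
  have hB : (2 : ℤ) ^ (n' + 3) ∣ B ^ 2 + D := by
    have h1 : (2 : ℤ) ^ (n' + 3) ∣ v ^ 2 * (B ^ 2 + D) := by
      refine ⟨1 - b - b * (B * v), ?_⟩
      have : v ^ 2 * D = 2 ^ (n' + 3) - 1 := by linarith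
      linear_combination this + (B * v + 1 - b * 2 ^ (n' + 3)) * hB1 + b * 2 ^ (n' + 3) * hB1
    have hcop2 : IsCoprime ((2 : ℤ) ^ (n' + 3)) (v ^ 2) := by
      apply IsCoprime.pow_right
      exact ⟨b, B, by linarith⟩
    exact hcop2.dvd_of_dvd_mul_left h1
  have hBo : Odd B := by
    by_contra hBe
    rw [Int.not_odd_iff_even] at hBe
    obtain ⟨w, rfl⟩ := hBe
    have e8 : (2 : ℤ) ^ (n' + 3) = 2 * (4 * 2 ^ n') := by ring
    rw [e8] at hB1
    have : (2 : ℤ) * (w * v + b * (4 * 2 ^ n')) = 1 := by linarith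
    omega
  -- orientation of an arbitrary solution
  have orient : ∀ (k : ℕ), k + 2 ≤ n' + 3 → ∀ x y : ℤ, Odd x → Odd y →
      x ^ 2 + D * y ^ 2 = 2 ^ (k + 2) → ∃ y' : ℤ, Odd y' ∧ Pk B D k x y' := by
    intro k hkn x y hx hy hxy
    obtain ⟨t, ht⟩ : (2 : ℤ) ^ (k + 2) ∣ B ^ 2 + D := (pow_dvd_pow 2 hkn).trans hB
    obtain ⟨a, ha⟩ : ∃ a, x - B * y = 2 * a := by
      obtain ⟨x1, hx1⟩ := hx
      obtain ⟨y1, hy1⟩ := hy
      obtain ⟨b1, hb1⟩ := hBo
      exact ⟨x1 - b1 * y - y1, by rw [hx1, hy1, hb1]; ring⟩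
    have hc : x + B * y = 2 * (x - a) := by linarith
    have hprod : a * (x - a) = 2 ^ k * (1 - t * y ^ 2) := by
      have e4 : (2 : ℤ) ^ (k + 2) = 4 * 2 ^ k := by ring
      rw [e4] at ht hxy
      have : 4 * (a * (x - a)) = 4 * (2 ^ k * (1 - t * y ^ 2)) := by
        linear_combination hxy - y ^ 2 * ht - (x + B * y) * ha - 2 * a * hc
      linarith
    rcases Int.even_or_odd a with hae | hao
    · -- x - a odd
      have hodd : Odd (x - a) := hx.sub_even hae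
      have hcp : IsCoprime ((2 : ℤ) ^ k) (x - a) := by
        apply IsCoprime.pow_left
        obtain ⟨w, hw⟩ := hodd
        exact ⟨-w, 1, by rw [hw]; ring⟩
      have hd : (2 : ℤ) ^ k ∣ a := hcp.dvd_of_dvd_mul_right ⟨_, hprod⟩
      refine ⟨y, hy, hxy, ?_⟩
      obtain ⟨c, hc'⟩ := hd
      exact ⟨c, by rw [ha, hc']; ring⟩
    · have hcp : IsCoprime ((2 : ℤ) ^ k) a := by
        apply IsCoprime.pow_left
        obtain ⟨w, hw⟩ := hao
        exact ⟨-w, 1, by rw [hw]; ring⟩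
      have hd : (2 : ℤ) ^ k ∣ (x - a) := hcp.dvd_of_dvd_mul_left ⟨_, hprod⟩
      refine ⟨-y, hy.neg, by rw [← hxy]; ring, ?_⟩
      obtain ⟨c, hc'⟩ := hd
      refine ⟨c, ?_⟩
      have : x - B * -y = x + B * y := by ring
      rw [this, hc, hc']; ring
  -- minimal exponent
  classical
  have hex : ∃ k : ℕ, 1 ≤ k ∧ ∃ x y : ℤ, Odd x ∧ Odd y ∧ Pk B D k x y := by
    obtain ⟨y', hy', hP⟩ := orient k (by omega) x y hx hy hxy
    exact ⟨k, hk1, x, y', hx, hy', hP⟩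
  obtain ⟨hk0, x0, y0, hx0, hy0, hP0⟩ := Nat.find_spec hex
  set k0 := Nat.find hex with hk0def
  have hmin : ∀ k : ℕ, 1 ≤ k → k < k0 → ∀ x y : ℤ, Odd x → Odd y → ¬ Pk B D k x y := by
    intro k h1 h2 x y hx hy hP
    exact Nat.find_min hex h2 ⟨h1, x, y, hx, hy, hP⟩
  have hk0k : k0 ≤ k := by
    obtain ⟨y', hy', hP⟩ := orient k (by omega) x y hx hy hxy
    exact Nat.find_min' hex ⟨hk1, x, y', hx, hy', hP⟩
  -- the given solution (1, v)
  have hPv : Pk B D (n' + 1) 1 v := by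
    refine ⟨by rw [one_pow]; exact h, ?_⟩
    refine ⟨2 * b, ?_⟩
    have : (2 : ℤ) ^ (n' + 3) = 2 * 2 ^ (n' + 1 + 1) := by ring
    rw [this] at hB1
    linear_combination -hB1
  obtain ⟨m, hm, e, he, hx1, -⟩ := Pk_structure B D (n' + 3) hD7 hDo hBo hB k0 hk0 x0 y0 hP0 hx0
    hy0 hmin (n' + 1) (by omega) 1 v hPv
  -- m is odd and at least 3
  have hmodd : Odd m := by
    by_contra hme
    rw [Nat.not_odd_iff_even] at hme
    have : Even (n' + 1) := by rw [hm]; exact hme.mul_left _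
    obtain ⟨c, hc⟩ := this
    obtain ⟨d, hd⟩ := hn
    omega
  obtain ⟨j, hj⟩ := hmodd
  have hj1 : 1 ≤ j := by
    rcases Nat.eq_zero_or_pos j with h0 | h0
    · exfalso
      subst h0
      have : m = 1 := by omega
      rw [this, mul_one] at hm
      omega
    · exact h0
  have hx0dvd : x0 ∣ 1 := by
    rw [hx1, hj]
    exact (V_odd_dvd x0 (2 ^ k0) j).mul_left _
  have hx01 : x0 = 1 ∨ x0 = -1 := Int.isUnit_iff.1 (isUnit_of_dvd_one hx0dvd)
  have hx0sq : x0 ^ 2 = 1 := by rcases hx01 with h | h <;> rw [h] <;> norm_num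
  obtain ⟨i, rfl⟩ : ∃ i, j = i + 1 := ⟨j - 1, by omega⟩
  have hm3 : m = 2 * i + 1 + 2 := by omega
  -- mod Q^2
  have hmod := V_mod_sq x0 (2 ^ k0) hx0sq (2 * i + 1)
  rw [← hm3] at hmod
  have hpow : x0 ^ m = x0 := by
    rw [hj, pow_succ, pow_mul, hx0sq, one_pow, one_mul]
  rw [hpow] at hmod
  have hVe : (VU x0 (2 ^ k0) m).1 = e := by
    rcases he with h | h
    · rw [h] at hx1 ⊢; linarith
    · rw [h] at hx1 ⊢; linarith
  rw [hVe] at hmod
  obtain ⟨q, hq⟩ : ∃ q, k0 = q + 1 := ⟨k0 - 1, by omega⟩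
  obtain ⟨c, hc⟩ := hmod
  have hmz : ((m : ℕ) : ℤ) = 2 * i + 3 := by rw [hm3]; push_cast; ring
  rw [hmz, hq] at hc
  have e3 : ((2 : ℤ) ^ (q + 1)) ^ 2 = 2 ^ (q + 1) * (2 * 2 ^ q) := by ring
  rw [e3] at hc
  have key : e = x0 ∨ e = - x0 := by
    rcases he with h | h <;> rcases hx01 with h' | h' <;> rw [h, h'] <;> norm_num
  rcases key with hk | hk
  · -- e = x0 : then Q | m
    have h1 : (2 : ℤ) ^ (q + 1) * (x0 * (2 * i + 3)) = 2 ^ (q + 1) * (2 * 2 ^ q * c) := by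
      rw [hk] at hc
      linear_combination hc
    have h2 := mul_left_cancel₀ (by positivity) h1
    have h3 : x0 * (2 * i + 3) = 2 * (2 ^ q * c) := by linarith
    rcases hx01 with h' | h' <;> rw [h'] at h3 <;> omega
  · rcases Nat.eq_zero_or_pos q with hq0 | hq0
    · -- Q = 2
      have h8 := (V_mod_eight x0 hx01 i).1
      have e9 : 2 * i + 3 = m := by omega
      rw [e9] at h8
      have hQ : (2 : ℤ) ^ k0 = 2 := by rw [hq, hq0]; norm_num
      rw [hQ] at hVe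
      rw [hVe, hk] at h8
      rcases hx01 with h' | h' <;> rw [h'] at h8 <;> norm_num at h8
    · obtain ⟨r, rfl⟩ : ∃ r, q = r + 1 := ⟨q - 1, by omega⟩
      rw [hk] at hc
      have h1 : 2 * x0 = 4 * (2 ^ r * (x0 * (2 * i + 3) - (2 * 2 ^ (r + 1)) * c)) := by
        have e4 : (2 : ℤ) ^ (r + 1 + 1) = 4 * 2 ^ r := by ring
        rw [e4] at hc
        linear_combination -hc
      rcases hx01 with h' | h' <;> rw [h'] at h1 <;> omega

end Run7.h246
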