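import Mathlib
import Pool.Agent.Run7.h246.OrdB

set_option autoImplicit false

namespace Run7.h246

/-- reduction of a positive definite binary quadratic form -/
theorem reduce_form (A B C D : ℤ) (hA : 0 < A) (hD : 0 < D) (hdisc : B ^ 2 + D = 4 * A * C) :
    ∃ s t r u a b c : ℤ, s * u - r * t = 1 ∧ A * s ^ 2 + B * s * r + C * r ^ 2 = a ∧
      2 * A * s * t + B * (s * u + r * t) + 2 * C * r * u = b ∧
      A * t ^ 2 + B * t * u + C * u ^ 2 = c ∧
      0 < a ∧ -a < b ∧ b ≤ a ∧ 3 * a ^ 2 ≤ D ∧ b ^ 2 + D = 4 * a * c := by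
  classical
  have hpos : ∀ x y : ℤ, (x ≠ 0 ∨ y ≠ 0) → 0 < A * x ^ 2 + B * x * y + C * y ^ 2 := by
    intro x y hxy
    have e : 4 * A * (A * x ^ 2 + B * x * y + C * y ^ 2) = (2 * A * x + B * y) ^ 2 + D * y ^ 2 := by
      linear_combination (-y ^ 2) * hdisc
    have h1 : 0 < (2 * A * x + B * y) ^ 2 + D * y ^ 2 := by
      rcases eq_or_ne y 0 with rfl | hy
      · have hx : x ≠ 0 := by
          rcases hxy with h | h
          · exact h
          · exact absurd rfl h
        have : 0 < (2 * A * x) ^ 2 := by positivity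
        simpa using this
      · have : 0 < D * y ^ 2 := by positivity
        have := sq_nonneg (2 * A * x + B * y)
        linarith
    rw [← e] at h1
    by_contra hcon
    push Not at hcon
    nlinarith
  have hex : ∃ m : ℕ, ∃ x y : ℤ, (x ≠ 0 ∨ y ≠ 0) ∧ A * x ^ 2 + B * x * y + C * y ^ 2 = m := by
    refine ⟨(A * 1 ^ 2 + B * 1 * 0 + C * 0 ^ 2).toNat, 1, 0, Or.inl one_ne_zero, ?_⟩
    have := hpos 1 0 (Or.inl one_ne_zero)
    omega
  obtain ⟨s, r, hsr, hm⟩ := Nat.find_spec hex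
  have hmin : ∀ x y : ℤ, (x ≠ 0 ∨ y ≠ 0) →
      ((Nat.find hex : ℕ) : ℤ) ≤ A * x ^ 2 + B * x * y + C * y ^ 2 := by
    intro x y hxy
    have h1 := hpos x y hxy
    have h2 := Nat.find_min' hex (m := (A * x ^ 2 + B * x * y + C * y ^ 2).toNat)
      ⟨x, y, hxy, by omega⟩
    omega
  set a : ℤ := ((Nat.find hex : ℕ) : ℤ) with ha
  have hapos : 0 < a := by rw [← hm]; exact hpos s r hsr
  -- primitive
  have hcop : IsCoprime s r := by
    rw [Int.isCoprime_iff_gcd_eq_one]
    by_contra hg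
    have hg0 : Int.gcd s r ≠ 0 := by
      intro h0
      rw [Int.gcd_eq_zero_iff] at h0
      rcases hsr with h | h
      · exact h h0.1
      · exact h h0.2
    have hg2 : 2 ≤ Int.gcd s r := by omega
    obtain ⟨s1, hs1⟩ := Int.gcd_dvd_left s r
    obtain ⟨r1, hr1⟩ := Int.gcd_dvd_right s r
    have hne : s1 ≠ 0 ∨ r1 ≠ 0 := by
      by_contra hcon
      push Not at hcon
      rw [hcon.1, mul_zero] at hs1
      rw [hcon.2, mul_zero] at hr1
      rcases hsr with h | h
      · exact h hs1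
      · exact h hr1
    have h1 := hmin s1 r1 hne
    set g : ℤ := ((Int.gcd s r : ℕ) : ℤ) with hgdef
    have hg2' : (2 : ℤ) ≤ g := by rw [hgdef]; exact_mod_cast hg2
    have e : a = g ^ 2 * (A * s1 ^ 2 + B * s1 * r1 + C * r1 ^ 2) := by
      rw [← hm, hs1, hr1]; ring
    have h2 : 4 ≤ g ^ 2 := by nlinarith
    nlinarith [hpos s1 r1 hne]
  obtain ⟨u0, t0', hut⟩ := hcop
  -- u0 * s + t0' * r = 1 ; t0 = - t0'
  set b0 : ℤ := 2 * A * s * (-t0') + B * (s * u0 + r * (-t0')) + 2 * C * r * u0 with hb0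
  -- shift
  obtain ⟨k, hk1, hk2⟩ : ∃ k : ℤ, -a < b0 + 2 * a * k ∧ b0 + 2 * a * k ≤ a := by
    refine ⟨-((b0 + a - 1) / (2 * a)), ?_, ?_⟩
    · have := Int.emod_add_mul_ediv (b0 + a - 1) (2 * a)
      have h2 := Int.emod_nonneg (b0 + a - 1) (b := 2 * a) (by omega)
      have e : 2 * a * -((b0 + a - 1) / (2 * a)) = - (2 * a * ((b0 + a - 1) / (2 * a))) := by ring
      rw [e]
      linarith
    · have := Int.emod_add_mul_ediv (b0 + a - 1) (2 * a)
      have h2 := Int.emod_lt_of_pos (b0 + a - 1) (b := 2 * a) (by omega)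
      have e : 2 * a * -((b0 + a - 1) / (2 * a)) = - (2 * a * ((b0 + a - 1) / (2 * a))) := by ring
      rw [e]
      linarith
  have hdet : s * (u0 + k * r) - r * (-t0' + k * s) = 1 := by linear_combination hut
  have hbeq : 2 * A * s * (-t0' + k * s) + B * (s * (u0 + k * r) + r * (-t0' + k * s))
      + 2 * C * r * (u0 + k * r) = b0 + 2 * a * k := by
    rw [hb0]
    linear_combination (2 * k) * hm
  have hne : (-t0' + k * s ≠ 0 ∨ u0 + k * r ≠ 0) := by
    by_contra hcon
    push Not at hcon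
    rw [hcon.1, hcon.2] at hdet
    norm_num at hdet
  have hc := hmin _ _ hne
  refine ⟨s, -t0' + k * s, r, u0 + k * r, a, b0 + 2 * a * k, _, hdet, hm, hbeq, rfl, hapos, hk1,
    hk2, ?_, ?_⟩
  · have hid : (b0 + 2 * a * k) ^ 2 + D = 4 * a * (A * (-t0' + k * s) ^ 2 +
        B * (-t0' + k * s) * (u0 + k * r) + C * (u0 + k * r) ^ 2) := by
      rw [← hbeq, ← hm]
      linear_combination (s * (u0 + k * r) - r * (-t0' + k * s) ) ^ 2 * hdisc -
        D * (s * (u0 + k * r) - r * (-t0' + k * s) + 1) * hdet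
    have h1 : (b0 + 2 * a * k) ^ 2 ≤ a ^ 2 := by
      apply sq_le_sq'
      · linarith
      · exact hk2
    have h2 : 4 * a * a ≤ 4 * a * (A * (-t0' + k * s) ^ 2 +
        B * (-t0' + k * s) * (u0 + k * r) + C * (u0 + k * r) ^ 2) := by
      apply mul_le_mul_of_nonneg_left hc (by linarith)
    rw [← hid] at h2
    linarith
  · rw [← hbeq, ← hm]
    linear_combination (s * (u0 + k * r) - r * (-t0' + k * s) ) ^ 2 * hdisc -
        D * (s * (u0 + k * r) - r * (-t0' + k * s) + 1) * hdet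

theorem compose_forms (A B C A' B' C' s t r u s' t' r' u' : ℤ) (h : s * u - r * t = 1)
    (h' : s' * u' - r' * t' = 1)
    (ha : A * s ^ 2 + B * s * r + C * r ^ 2 = A' * s' ^ 2 + B' * s' * r' + C' * r' ^ 2)
    (hb : 2 * A * s * t + B * (s * u + r * t) + 2 * C * r * u =
      2 * A' * s' * t' + B' * (s' * u' + r' * t') + 2 * C' * r' * u')
    (hc : A * t ^ 2 + B * t * u + C * u ^ 2 = A' * t' ^ 2 + B' * t' * u' + C' * u' ^ 2) :
    ∃ p q v w : ℤ, p * w - q * v = 1 ∧ A * p ^ 2 + B * p * v + C * v ^ 2 = A' ∧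
      2 * A * p * q + B * (p * w + q * v) + 2 * C * v * w = B' := by
  refine ⟨s * u' - t * r', -s * t' + t * s', r * u' - u * r', -r * t' + u * s', ?_, ?_, ?_⟩
  · linear_combination h' + (s' * u' - r' * t') * h
  · linear_combination u' ^ 2 * ha - u' * r' * hb + r' ^ 2 * hc +
      A' * (s' * u' - r' * t' + 1) * h'
  · linear_combination -2 * u' * t' * ha + (u' * s' + t' * r') * hb - 2 * r' * s' * hc +
      B' * (s' * u' - r' * t' + 1) * h'

theorem to_odd (D : ℤ) (hD7 : 7 ≤ D) (hDo : Odd D) (e : ℕ) : ∀ X Y : ℤ, Y ≠ 0 →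
    (∃ z, X - Y = 2 * z) → X ^ 2 + D * Y ^ 2 = 2 ^ (e + 2) →
    ∃ k : ℕ, 1 ≤ k ∧ k ≤ e ∧ ∃ x y : ℤ, Odd x ∧ Odd y ∧ x ^ 2 + D * y ^ 2 = 2 ^ (k + 2) := by
  induction e using Nat.strong_induction_on with
  | _ e ih =>
    intro X Y hY hz hXY
    obtain ⟨z, hz⟩ := hz
    have hY1 : 1 ≤ Y ^ 2 := by
      have := sq_pos_of_ne_zero hY
      omega
    rcases Int.even_or_odd Y with hYe | hYo
    · obtain ⟨Y1, hY1'⟩ := hYe
      have hX1 : X = 2 * (z + Y1) := by linarith
      have hY1'' : Y = 2 * Y1 := by linarith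
      have hred : (z + Y1) ^ 2 + D * Y1 ^ 2 = 2 ^ e := by
        rw [hX1, hY1''] at hXY
        have : (2 : ℤ) ^ (e + 2) = 4 * 2 ^ e := by ring
        rw [this] at hXY
        nlinarith
      have hY10 : Y1 ≠ 0 := by rintro rfl; exact hY (by rw [hY1'']; ring)
      have hY11 : 1 ≤ Y1 ^ 2 := by
        have := sq_pos_of_ne_zero hY10
        omega
      have h7 : (7 : ℤ) ≤ 2 ^ e := by
        rw [← hred]
        nlinarith [sq_nonneg (z + Y1), mul_nonneg (sub_nonneg.2 hD7) (sq_nonneg Y1)]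
      have he : 3 ≤ e := by
        by_contra hlt
        have : e = 0 ∨ e = 1 ∨ e = 2 := by omega
        rcases this with rfl | rfl | rfl <;> norm_num at h7
      obtain ⟨f, rfl⟩ : ∃ f, e = f + 2 := ⟨e - 2, by omega⟩
      have hpar : ∃ z', (z + Y1) - Y1 = 2 * z' := by
        obtain ⟨d, hd⟩ := hDo
        have e1 : (2 : ℤ) ^ (f + 2) = 2 * (2 * 2 ^ f) := by ring
        rw [e1] at hred
        have : Even (z * z) := by
          refine ⟨2 * 2 ^ f - z * Y1 - (d + 1) * Y1 ^ 2, ?_⟩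
          rw [hd] at hred
          linear_combination hred
        have hze : Even z := by
          rcases Int.even_mul.1 this with h | h <;> exact h
        obtain ⟨z', hz'⟩ := hze
        exact ⟨z', by rw [hz']; ring⟩
      obtain ⟨k, hk1, hk2, x, y, h⟩ := ih f (by omega) (z + Y1) Y1 hY10 hpar hred
      exact ⟨k, hk1, by omega, x, y, h⟩
    · have hXo : Odd X := by
        obtain ⟨y, hy⟩ := hYo
        exact ⟨z + y, by linarith⟩
      refine ⟨e, ?_, le_refl _, X, Y, hXo, hYo, hXY⟩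
      by_contra he
      have he0 : e = 0 := by omega
      subst he0
      norm_num at hXY
      have hX2 : 1 ≤ X ^ 2 := by
        have hX0 : X ≠ 0 := by
          rintro rfl
          obtain ⟨x, hx⟩ := hXo
          omega
        have := sq_pos_of_ne_zero hX0
        omega
      nlinarith [mul_nonneg (sub_nonneg.2 hD7) (sq_nonneg Y)]

end Run7.h246
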