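import Mathlib
import Pool.Agent.Run7.h246.OrdC

set_option autoImplicit false

namespace Run7.h246

/-- Reduced pairs of discriminant `-D` -/
noncomputable def Red (D : ℤ) (A : ℕ) : Finset (ℤ × ℤ) :=
  ((Finset.Icc (1 : ℤ) A) ×ˢ (Finset.Icc (-(A : ℤ)) A)).filter
    (fun z => -z.1 < z.2 ∧ z.2 ≤ z.1 ∧ 4 * z.1 ∣ z.2 ^ 2 + D)

theorem card_Red_ge (D v : ℤ) (n : ℕ) (hn : Odd n) (hn3 : 3 ≤ n) (hD : 0 < D)
    (h : 1 + D * v ^ 2 = 2 ^ n) (A : ℕ) (hA : ∀ a : ℤ, 3 * a ^ 2 ≤ D → a ≤ A) :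
    n - 2 ≤ (Red D A).card := by
  classical
  obtain ⟨n', rfl⟩ : ∃ n', n = n' + 3 := ⟨n - 3, by omega⟩
  have hDv : D * v ^ 2 = 8 * 2 ^ n' - 1 := by
    have : (2 : ℤ) ^ (n' + 3) = 8 * 2 ^ n' := by ring
    rw [this] at h; linarith
  have hvo : Odd v := by
    by_contra hv
    rw [Int.not_odd_iff_even] at hv
    obtain ⟨w, rfl⟩ := hv
    have : D * (w + w) ^ 2 = 2 * (2 * D * w ^ 2) := by ring
    omega
  have hDo : Odd D := by
    by_contra hv
    rw [Int.not_odd_iff_even] at hv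
    obtain ⟨w, rfl⟩ := hv
    have : (w + w) * v ^ 2 = 2 * (w * v ^ 2) := by ring
    omega
  have hD8 : D % 8 = 7 := by
    obtain ⟨w, hw⟩ := hvo
    have h1 : (8 : ℤ) ∣ v ^ 2 - 1 := by
      rw [hw]
      have h2 : (2 * w + 1) ^ 2 - 1 = 4 * (w * (w + 1)) := by ring
      rw [h2]
      obtain ⟨c, hc⟩ := Int.even_mul_succ_self w
      exact ⟨c, by rw [hc]; ring⟩
    obtain ⟨c, hc⟩ := h1
    have h3 : D * v ^ 2 = D + 8 * (D * c) := by
      linear_combination D * hc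
    omega
  have hD7 : 7 ≤ D := by omega
  have hcop : IsCoprime v ((2 : ℤ) ^ (n' + 3)) := by
    apply IsCoprime.pow_right
    obtain ⟨w, hw⟩ := hvo
    exact ⟨1, -w, by rw [hw]; ring⟩
  obtain ⟨B, b, hB1⟩ := hcop
  have hB : (2 : ℤ) ^ (n' + 3) ∣ B ^ 2 + D := by
    have h1 : (2 : ℤ) ^ (n' + 3) ∣ v ^ 2 * (B ^ 2 + D) := by
      refine ⟨1 - b - b * (B * v), ?_⟩
      have : v ^ 2 * D = 2 ^ (n' + 3) - 1 := by linarith
      linear_combination this + (B * v + 1 - b * 2 ^ (n' + 3)) * hB1 + b * 2 ^ (n' + 3) * hB1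
    have hcop2 : IsCoprime ((2 : ℤ) ^ (n' + 3)) (v ^ 2) := by
      apply IsCoprime.pow_right
      exact ⟨b, B, by linarith⟩
    exact hcop2.dvd_of_dvd_mul_left h1
  have hBo : Odd B := by
    by_contra hBe
    rw [Int.not_odd_iff_even] at hBe
    obtain ⟨w, rfl⟩ := hBe
    have e8 : (2 : ℤ) ^ (n' + 3) = 2 * (4 * 2 ^ n') := by ring
    rw [e8] at hB1
    have : (2 : ℤ) * (w * v + b * (4 * 2 ^ n')) = 1 := by linarith
    omega
  obtain ⟨t, ht⟩ := hB
  -- the forms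
  have hform : ∀ i : ℕ, i < n' + 1 → ∃ C : ℤ, B ^ 2 + D = 4 * 2 ^ i * C := by
    intro i hi
    refine ⟨2 ^ (n' + 1 - i) * t, ?_⟩
    rw [ht]
    have : (2 : ℤ) ^ (n' + 3) = 4 * (2 ^ i * 2 ^ (n' + 1 - i)) := by
      rw [← pow_add, show i + (n' + 1 - i) = n' + 1 by omega]; ring
    rw [this]; ring
  choose! C hC using hform
  have hred : ∀ i : ℕ, i < n' + 1 → _ := fun i hi =>
    reduce_form (2 ^ i) B (C i) D (by positivity) hD (hC i hi)
  choose! s t' r u a b' c h1 h2 h3 h4 h5 h6 h7 h8 h9 using hred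
  have hmaps : ∀ i ∈ Finset.range (n' + 1), (a i, b' i) ∈ Red D A := by
    intro i hi
    rw [Finset.mem_range] at hi
    have g5 := h5 i hi
    have g6 := h6 i hi
    have g7 := h7 i hi
    have g8 := hA _ (h8 i hi)
    simp only [Red, Finset.mem_filter, Finset.mem_product, Finset.mem_Icc]
    refine ⟨⟨⟨by omega, g8⟩, by omega, by omega⟩, g6, g7, ?_⟩
    exact ⟨c i, h9 i hi⟩
  have key : ∀ i j : ℕ, i < j → j < n' + 1 → (a i, b' i) = (a j, b' j) → False := by
    intro i j hij hj heq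
    have hi : i < n' + 1 := by omega
    rw [Prod.mk.injEq] at heq
    obtain ⟨ea, eb⟩ := heq
    have ec : c i = c j := by
      have e1 := h9 i hi
      have e2 := h9 j hj
      rw [ea, eb, e2] at e1
      have hne : 4 * a j ≠ 0 := by have := h5 j hj; omega
      exact (mul_left_cancel₀ hne e1).symm
    obtain ⟨p, q, w0, w, hdet, f1, f2⟩ := compose_forms (2 ^ i) B (C i) (2 ^ j) B (C j)
      (s i) (t' i) (r i) (u i) (s j) (t' j) (r j) (u j) (h1 i hi) (h1 j hj)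
      (by rw [h2 i hi, h2 j hj, ea]) (by rw [h3 i hi, h3 j hj, eb])
      (by rw [h4 i hi, h4 j hj, ec])
    have hlin : B * w0 = 2 ^ j * w - 2 ^ i * p := by
      have : 2 * (B * w0) = 2 * (2 ^ j * w - 2 ^ i * p) := by
        linear_combination 2 * w * f1 - w0 * f2 - (2 * 2 ^ i * p + B * w0) * hdet
      omega
    obtain ⟨d, rfl⟩ : ∃ d, j = i + d := ⟨j - i, by omega⟩
    have hdiv : (2 : ℤ) ^ i ∣ w0 := by
      have hcp : IsCoprime ((2 : ℤ) ^ i) B := by
        apply IsCoprime.pow_left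
        obtain ⟨z, hz⟩ := hBo
        exact ⟨-z, 1, by rw [hz]; ring⟩
      apply hcp.dvd_of_dvd_mul_left
      refine ⟨2 ^ d * w - p, ?_⟩
      rw [hlin, pow_add]; ring
    obtain ⟨l, hl⟩ := hdiv
    have h2i : (2 : ℤ) ^ i ≠ 0 := by positivity
    have hlin2 : B * l = 2 ^ d * w - p := by
      apply mul_left_cancel₀ h2i
      rw [hl, pow_add] at hlin
      linear_combination hlin
    have hXY : (2 * p + B * l) ^ 2 + D * l ^ 2 = 2 ^ (d + 2) := by
      have h4i : (2 : ℤ) ^ i * 2 ^ i ≠ 0 := by positivity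
      apply mul_left_cancel₀ h4i
      have hCi := hC i hi
      rw [hl, pow_add] at f1
      have e2 : (2 : ℤ) ^ (d + 2) = 4 * 2 ^ d := by ring
      rw [e2]
      linear_combination (4 * 2 ^ i) * f1 + (2 ^ i * 2 ^ i * l ^ 2) * hCi
    have hl0 : l ≠ 0 := by
      rintro rfl
      rw [mul_zero] at hl
      rw [hl] at hdet
      have hp : p ∣ 1 := ⟨w, by linarith⟩
      rw [mul_zero] at hlin2
      have hp2 : p = 2 ^ d * w := by linarith
      obtain ⟨d', rfl⟩ : ∃ d', d = d' + 1 := ⟨d - 1, by omega⟩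
      have h2p : (2 : ℤ) ∣ p := ⟨2 ^ d' * w, by rw [hp2]; ring⟩
      have h21 : (2 : ℤ) ∣ 1 := h2p.trans hp
      norm_num at h21
    obtain ⟨k, hk1, hk2, x, y, hx, hy, hxy⟩ := to_odd D hD7 hDo d (2 * p + B * l) l hl0
      (by
        obtain ⟨z, hz⟩ := hBo
        exact ⟨p + z * l, by rw [hz]; ring⟩) hXY
    exact no_small D v (n' + 3) hn hn3 hD h k hk1 (by omega) x y hx hy hxy
  have hinj : Set.InjOn (fun i => (a i, b' i)) (Finset.range (n' + 1) : Set ℕ) := by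
    intro i hi j hj hij
    simp only [Finset.coe_range, Set.mem_Iio] at hi hj
    rcases lt_trichotomy i j with hlt | heq | hgt
    · exact (key i j hlt hj hij).elim
    · exact heq
    · exact (key j i hgt hi hij.symm).elim
  have hcard := Finset.card_le_card_of_injOn (s := Finset.range (n' + 1)) (t := Red D A)
    (fun i => (a i, b' i)) hmaps hinj
  rw [Finset.card_range] at hcard
  omega

end Run7.h246
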