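import Mathlib
import Pool.Agent.Run7.h246.OrdD

set_option autoImplicit false

namespace Run7.h246

open Finset

/-- at most `d(a)` reduced pairs have first entry `a` -/
theorem fiber_card (D : ℕ) (hD : Squarefree D) (a : ℕ) (ha : 1 ≤ a) (S : Finset ℤ)
    (hS : ∀ b ∈ S, -(a : ℤ) < b ∧ b ≤ a ∧ 4 * (a : ℤ) ∣ b ^ 2 + D) :
    S.card ≤ a.divisors.card := by
  classical
  rcases S.eq_empty_or_nonempty with rfl | ⟨b1, hb1⟩
  · simp
  have hpar : ∀ b ∈ S, ∃ e : ℤ, b1 - b = 2 * e := by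
    intro b hb
    obtain ⟨c, hc⟩ := (hS b hb).2.2
    obtain ⟨c1, hc1⟩ := (hS b1 hb1).2.2
    have h1 : b1 ^ 2 - b ^ 2 = 2 * (2 * (a * (c1 - c))) := by linear_combination hc1 - hc
    have h2 : Even (b1 ^ 2 - b ^ 2) := ⟨2 * (a * (c1 - c)), by rw [h1]; ring⟩
    rcases Int.even_or_odd (b1 - b) with h | h
    · obtain ⟨e, he⟩ := h
      exact ⟨e, by rw [he]; ring⟩
    · exfalso
      have h3 : Odd (b1 + b) := by
        obtain ⟨e, he⟩ := h
        exact ⟨b + e, by linarith⟩
      have h4 : Odd ((b1 - b) * (b1 + b)) := h.mul h3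
      have h5 : (b1 - b) * (b1 + b) = b1 ^ 2 - b ^ 2 := by ring
      rw [h5] at h4
      exact (Int.not_even_iff_odd.2 h4) h2
  apply Finset.card_le_card_of_injOn (fun b => Int.gcd ((b1 - b) / 2) a)
  · intro b _
    simp only [Finset.mem_coe, Nat.mem_divisors]
    refine ⟨?_, by omega⟩
    exact_mod_cast Int.gcd_dvd_right ((b1 - b) / 2) (a : ℤ)
  · intro b hb b' hb' hbb
    simp only [Finset.mem_coe] at hb hb'
    simp only at hbb
    obtain ⟨e, he⟩ := hpar b hb
    obtain ⟨e', he'⟩ := hpar b' hb'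
    rw [he, he'] at hbb
    rw [Int.mul_ediv_cancel_left _ (by norm_num), Int.mul_ediv_cancel_left _ (by norm_num)] at hbb
    -- g = gcd(e, a) = gcd(e', a)
    set g : ℕ := Int.gcd e a with hg
    obtain ⟨a1, ha1⟩ : g ∣ a := by
      exact_mod_cast Int.gcd_dvd_right e (a : ℤ)
    have hgpos : 0 < g := by
      rcases Nat.eq_zero_or_pos g with h | h
      · rw [h, zero_mul] at ha1; omega
      · exact h
    -- coprimality of g and a1
    obtain ⟨c, hc⟩ := (hS b hb).2.2
    obtain ⟨c', hc'⟩ := (hS b' hb').2.2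
    obtain ⟨c1, hc1⟩ := (hS b1 hb1).2.2
    have hstep : ∀ (f : ℤ) (b : ℤ), b1 - b = 2 * f → 4 * (a : ℤ) ∣ b ^ 2 + D →
        g = Int.gcd f a → (g : ℤ) ∣ f ∧ (a1 : ℤ) ∣ b1 - f := by
      intro f b hf hcb hgf
      have hgd : (g : ℤ) ∣ f := by rw [hgf]; exact Int.gcd_dvd_left f a
      refine ⟨hgd, ?_⟩
      obtain ⟨c, hc⟩ := hcb
      have hprod : f * (b1 - f) = a * (c1 - c) := by
        have hb : b = b1 - 2 * f := by linarith
        have : 4 * (f * (b1 - f)) = 4 * (a * (c1 - c)) := by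
          rw [hb] at hc
          linear_combination hc1 - hc
        linarith
      obtain ⟨f1, hf1⟩ := hgd
      have hcp : IsCoprime (a1 : ℤ) f1 := by
        rw [Int.isCoprime_iff_gcd_eq_one]
        have h1 : Int.gcd f a = g * Int.gcd f1 a1 := by
          rw [hf1]
          have : (a : ℤ) = (g : ℤ) * (a1 : ℤ) := by exact_mod_cast ha1
          rw [this, Int.gcd_mul_left, Int.natAbs_natCast]
        rw [← hgf] at h1
        have h2 : Int.gcd f1 a1 = 1 := by
          have : g * 1 = g * Int.gcd f1 a1 := by rw [mul_one]; exact h1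
          exact (Nat.eq_of_mul_eq_mul_left hgpos this).symm
        rw [Int.gcd_comm]; exact h2
      apply hcp.dvd_of_dvd_mul_left
      refine ⟨c1 - c, ?_⟩
      have hg0 : (g : ℤ) ≠ 0 := by exact_mod_cast hgpos.ne'
      apply mul_left_cancel₀ hg0
      have ha2 : (a : ℤ) = (g : ℤ) * (a1 : ℤ) := by exact_mod_cast ha1
      rw [ha2, hf1] at hprod
      linear_combination hprod - g * f1 * hf1
    obtain ⟨k1, k2⟩ := hstep e b he ⟨c, hc⟩ rfl
    obtain ⟨k3, k4⟩ := hstep e' b' he' ⟨c', hc'⟩ hbb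
    have hcop : Nat.Coprime g a1 := by
      apply Nat.coprime_of_dvd
      intro p hp hpg hpa
      have p1 : (p : ℤ) ∣ e := (Int.natCast_dvd_natCast.2 hpg).trans k1
      have p2 : (p : ℤ) ∣ b1 - e := (Int.natCast_dvd_natCast.2 hpa).trans k2
      have p3 : (p : ℤ) ∣ b1 := by
        have := dvd_add p1 p2
        simpa using this
      have p4 : (p : ℤ) ^ 2 ∣ (a : ℤ) := by
        have : p * p ∣ g * a1 := Nat.mul_dvd_mul hpg hpa
        rw [← ha1] at this
        have h5 : ((p * p : ℕ) : ℤ) ∣ (a : ℤ) := Int.natCast_dvd_natCast.2 this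
        rw [pow_two]; exact_mod_cast h5
      have p5 : (p : ℤ) ^ 2 ∣ b1 ^ 2 := pow_dvd_pow_of_dvd p3 2
      have p6 : (p : ℤ) ^ 2 ∣ b1 ^ 2 + D := by
        rw [hc1]
        exact (p4.mul_left 4).mul_right c1
      have p7 : (p : ℤ) ^ 2 ∣ (D : ℤ) := (dvd_add_right p5).1 p6
      have p8 : p * p ∣ D := by
        rw [pow_two] at p7
        exact_mod_cast p7
      have := hD p p8
      exact hp.one_lt.ne' (Nat.isUnit_iff.1 this)
    have q1 : (g : ℤ) ∣ e - e' := dvd_sub k1 k3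
    have q2 : (a1 : ℤ) ∣ e - e' := by
      have := dvd_sub k4 k2
      have h6 : b1 - e' - (b1 - e) = e - e' := by ring
      rwa [h6] at this
    have q3 : (a : ℤ) ∣ e - e' := by
      have hic : IsCoprime (g : ℤ) (a1 : ℤ) := Nat.isCoprime_iff_coprime.2 hcop
      have := hic.mul_dvd q1 q2
      have ha2 : (a : ℤ) = (g : ℤ) * (a1 : ℤ) := by exact_mod_cast ha1
      rwa [ha2]
    obtain ⟨z, hz⟩ := q3
    have r1 := (hS b hb)
    have r2 := (hS b' hb')
    have r3 : b' - b = 2 * (a * z) := by rw [← hz]; linarith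
    have hapos : (0 : ℤ) < a := by exact_mod_cast ha
    have hz0 : z = 0 := by
      have u1 : (a : ℤ) * z < a * 1 := by linarith [r1.1, r2.2.1]
      have u2 : (a : ℤ) * (-1) < a * z := by linarith [r1.2.1, r2.1]
      have u3 := lt_of_mul_lt_mul_left u1 hapos.le
      have u4 := lt_of_mul_lt_mul_left u2 hapos.le
      omega
    rw [hz0, mul_zero, mul_zero] at r3
    linarith

theorem sum_divisors_le (A : ℕ) :
    ∑ a ∈ Ioc 0 A, (a.divisors.card) = ∑ d ∈ Ioc 0 A, A / d := by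
  classical
  have h1 : ∀ a ∈ Ioc 0 A, a.divisors.card = ∑ d ∈ Ioc 0 A, if d ∣ a then 1 else 0 := by
    intro a ha
    rw [mem_Ioc] at ha
    rw [Finset.card_eq_sum_ones, ← Finset.sum_filter]
    apply Finset.sum_congr _ (fun _ _ => rfl)
    ext d
    simp only [Nat.mem_divisors, mem_filter, mem_Ioc]
    constructor
    · rintro ⟨h1, h2⟩
      exact ⟨⟨Nat.pos_of_dvd_of_pos h1 (by omega), (Nat.le_of_dvd (by omega) h1).trans ha.2⟩, h1⟩
    · rintro ⟨h1, h2⟩
      exact ⟨h2, by omega⟩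
  rw [Finset.sum_congr rfl h1, Finset.sum_comm]
  apply Finset.sum_congr rfl
  intro d _
  rw [← Nat.Ioc_filter_dvd_card_eq_div, Finset.card_filter]

theorem sum_divisors_real (A : ℕ) :
    ((∑ a ∈ Ioc 0 A, (a.divisors.card) : ℕ) : ℝ) ≤ A * (1 + Real.log A) := by
  rw [sum_divisors_le]
  have h1 : ((∑ d ∈ Ioc 0 A, A / d : ℕ) : ℝ) ≤ ∑ d ∈ Ioc 0 A, (A : ℝ) * ((d : ℝ))⁻¹ := by
    push_cast
    apply Finset.sum_le_sum
    intro d _
    rw [← div_eq_mul_inv]
    exact Nat.cast_div_le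
  refine h1.trans ?_
  rw [← Finset.mul_sum]
  apply mul_le_mul_of_nonneg_left _ (Nat.cast_nonneg A)
  have h2 := harmonic_le_one_add_log A
  refine le_trans (le_of_eq ?_) h2
  rw [harmonic_eq_sum_Icc]
  push_cast
  rfl

theorem Red_card_le (D : ℕ) (hD : Squarefree D) (A : ℕ) :
    (Red D A).card ≤ ∑ a ∈ Ioc 0 A, a.divisors.card := by
  classical
  have h1 : (Red D A).card = ∑ a ∈ (Ioc 0 A), ((Red D A).filter (fun z => z.1 = (a : ℤ))).card := by
    have := Finset.card_eq_sum_card_fiberwise (s := Red D A) (t := (Ioc 0 A).map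
      ⟨fun n : ℕ => (n : ℤ), Nat.cast_injective⟩) (f := fun z => z.1) (by
        intro z hz
        simp only [Red, Finset.coe_filter, Finset.mem_product, Finset.mem_Icc, Set.mem_ofPred_eq]
          at hz
        simp only [Finset.coe_map, Function.Embedding.coeFn_mk, Set.mem_image, Finset.mem_coe,
          mem_Ioc]
        exact ⟨z.1.toNat, by omega, by omega⟩)
    rw [this, Finset.sum_map]
    rfl
  rw [h1]
  apply Finset.sum_le_sum
  intro a ha
  rw [mem_Ioc] at ha
  have h2 : ((Red D A).filter (fun z => z.1 = (a : ℤ))).card =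
      (((Red D A).filter (fun z => z.1 = (a : ℤ))).image (fun z => z.2)).card := by
    rw [Finset.card_image_of_injOn]
    intro z hz w hw hzw
    simp only [Finset.coe_filter, Set.mem_ofPred_eq] at hz hw
    exact Prod.ext (hz.2.trans hw.2.symm) hzw
  rw [h2]
  apply fiber_card D hD a ha.1
  intro b hb
  simp only [Finset.mem_image, Finset.mem_filter, Red, Finset.mem_product, Finset.mem_Icc] at hb
  obtain ⟨z, ⟨⟨⟨_, _⟩, h3, h4, h5⟩, h6⟩, rfl⟩ := hb
  rw [← h6]
  exact ⟨h3, h4, h5⟩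

end Run7.h246
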