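import Mathlib

set_option autoImplicit false

namespace Run7.h246

/-- the ring `Z[sqrt(-2)]` -/
abbrev Oz : Type := Zsqrtd (-2)

theorem nm_nonneg (x : Oz) : 0 ≤ x.norm := Zsqrtd.norm_nonneg (by norm_num) x

theorem nm_eq_zero (x : Oz) : x.norm = 0 ↔ x = 0 := Zsqrtd.norm_eq_zero_iff (by norm_num) x

theorem nm_pos {x : Oz} (hx : x ≠ 0) : 1 ≤ x.norm := by
  have h1 := nm_nonneg x
  have h2 : x.norm ≠ 0 := fun h => hx ((nm_eq_zero x).1 h)
  omega

theorem nm_def (x : Oz) : x.norm = x.re ^ 2 + 2 * x.im ^ 2 := by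
  rw [Zsqrtd.norm_def]; ring

instance : NoZeroDivisors Oz where
  eq_zero_or_eq_zero_of_mul_eq_zero := by
    intro a b hab
    have h : a.norm * b.norm = 0 := by rw [← Zsqrtd.norm_mul, hab, Zsqrtd.norm_zero]
    rcases mul_eq_zero.1 h with h | h
    · exact Or.inl ((nm_eq_zero a).1 h)
    · exact Or.inr ((nm_eq_zero b).1 h)

instance : IsDomain Oz := NoZeroDivisors.to_isDomain _

/-- division with remainder -/
theorem Oz_div (x y : Oz) (hy : y ≠ 0) : ∃ q : Oz, (x - q * y).norm < y.norm := by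
  have hN : 0 < y.norm := by have := nm_pos hy; omega
  set N := y.norm with hNdef
  -- x * star y = u + w sqrt(-2)
  obtain ⟨q1, hq1⟩ : ∃ q1 : ℤ, -N ≤ 2 * ((x * star y).re - q1 * N) ∧
      2 * ((x * star y).re - q1 * N) ≤ N := by
    refine ⟨(2 * (x * star y).re + N) / (2 * N), ?_⟩
    have e1 := Int.emod_add_mul_ediv (2 * (x * star y).re + N) (2 * N)
    have e2 := Int.emod_nonneg (2 * (x * star y).re + N) (b := 2 * N) (by omega)
    have e3 := Int.emod_lt_of_pos (2 * (x * star y).re + N) (b := 2 * N) (by omega)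
    set Q := (2 * (x * star y).re + N) / (2 * N)
    have e4 : 2 * N * Q = 2 * (Q * N) := by ring
    constructor <;> linarith
  obtain ⟨q2, hq2⟩ : ∃ q2 : ℤ, -N ≤ 2 * ((x * star y).im - q2 * N) ∧
      2 * ((x * star y).im - q2 * N) ≤ N := by
    refine ⟨(2 * (x * star y).im + N) / (2 * N), ?_⟩
    have e1 := Int.emod_add_mul_ediv (2 * (x * star y).im + N) (2 * N)
    have e2 := Int.emod_nonneg (2 * (x * star y).im + N) (b := 2 * N) (by omega)
    have e3 := Int.emod_lt_of_pos (2 * (x * star y).im + N) (b := 2 * N) (by omega)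
    set Q := (2 * (x * star y).im + N) / (2 * N)
    have e4 : 2 * N * Q = 2 * (Q * N) := by ring
    constructor <;> linarith
  refine ⟨⟨q1, q2⟩, ?_⟩
  have hmul : (x - ⟨q1, q2⟩ * y).norm * N =
      ((x * star y).re - q1 * N) ^ 2 + 2 * ((x * star y).im - q2 * N) ^ 2 := by
    have h1 : (x - ⟨q1, q2⟩ * y).norm * N = ((x - ⟨q1, q2⟩ * y) * star y).norm := by
      rw [Zsqrtd.norm_mul, Zsqrtd.norm_conj]
    have h2 : y * star y = (N : Oz) := by rw [hNdef, Zsqrtd.norm_eq_mul_conj]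
    have h3 : (x - ⟨q1, q2⟩ * y) * star y = x * star y - ⟨q1, q2⟩ * (N : Oz) := by
      rw [sub_mul, mul_assoc, h2]
    rw [h1, h3, nm_def]
    simp only [Zsqrtd.re_sub, Zsqrtd.im_sub, Zsqrtd.re_mul, Zsqrtd.im_mul, Zsqrtd.re_intCast,
      Zsqrtd.im_intCast]
    ring
  have h4 : ((x * star y).re - q1 * N) ^ 2 * 4 ≤ N ^ 2 := by
    nlinarith [hq1.1, hq1.2]
  have h5 : ((x * star y).im - q2 * N) ^ 2 * 4 ≤ N ^ 2 := by
    nlinarith [hq2.1, hq2.2]
  have h6 : (x - ⟨q1, q2⟩ * y).norm * N * 4 ≤ 3 * N * N := by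
    rw [hmul]; nlinarith
  by_contra hcon
  push Not at hcon
  nlinarith

/-- Bezout -/
theorem Oz_bezout (x y : Oz) (hy : y ≠ 0) :
    ∃ g x' y' u t : Oz, g ≠ 0 ∧ x = g * x' ∧ y = g * y' ∧ u * x' + t * y' = 1 := by
  classical
  have hex : ∃ m : ℕ, 1 ≤ m ∧ ∃ u t : Oz, (u * x + t * y).norm = m :=
    ⟨y.norm.toNat, by have := nm_pos hy; omega, 0, 1, by
      have := nm_pos hy
      rw [zero_mul, zero_add, one_mul]; omega⟩
  obtain ⟨h1, u, t, hut⟩ := Nat.find_spec hex
  set g := u * x + t * y with hg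
  have hg0 : g ≠ 0 := by
    intro h0
    rw [h0, Zsqrtd.norm_zero] at hut
    omega
  have hdiv : ∀ z : Oz, (∃ a b : Oz, z = a * x + b * y) → g ∣ z := by
    rintro z ⟨a, b, hz⟩
    obtain ⟨q, hq⟩ := Oz_div z g hg0
    by_contra hndvd
    have hne : z - q * g ≠ 0 := by
      intro h0
      exact hndvd ⟨q, by linear_combination h0⟩
    have hpos := nm_pos hne
    have hlt : (z - q * g).norm.toNat < Nat.find hex := by omega
    refine Nat.find_min hex hlt ⟨by omega, a - q * u, b - q * t, ?_⟩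
    have : (a - q * u) * x + (b - q * t) * y = z - q * g := by rw [hz, hg]; ring
    rw [this]; omega
  obtain ⟨x', hx'⟩ := hdiv x ⟨1, 0, by ring⟩
  obtain ⟨y', hy'⟩ := hdiv y ⟨0, 1, by ring⟩
  refine ⟨g, x', y', u, t, hg0, hx', hy', ?_⟩
  apply mul_left_cancel₀ hg0
  linear_combination (-u) * hx' - t * hy' - hg

theorem Oz_unit_norm (x : Oz) (h : x.norm = 1) : IsUnit x := by
  rw [← Zsqrtd.norm_eq_one_iff, h]; rfl

theorem Oz_cases_norm_one (x : Oz) (h : x.norm = 1) : x = 1 ∨ x = -1 := by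
  rw [nm_def] at h
  have h1 : x.im = 0 := by
    by_contra hne
    have : 1 ≤ x.im ^ 2 := by
      have := sq_pos_of_ne_zero hne
      omega
    nlinarith [sq_nonneg x.re]
  rw [h1] at h
  have h2 : (x.re - 1) * (x.re + 1) = 0 := by linear_combination h
  rcases mul_eq_zero.1 h2 with h3 | h3
  · left; ext
    · simp; omega
    · simpa using h1
  · right; ext
    · simp; omega
    · simpa using h1

/-- a squarefree odd integer stays squarefree in `Z[sqrt(-2)]` -/
theorem Oz_squarefree (D : ℕ) (hD : Squarefree D) (hodd : Odd D) (e z : Oz)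
    (h : (D : Oz) = e ^ 2 * z) : IsUnit e := by
  have hD0 : (D : ℤ) ≠ 0 := by
    rintro h0
    have : D = 0 := by exact_mod_cast h0
    rw [this] at hodd
    exact absurd hodd (by decide)
  obtain ⟨m, hm⟩ : ∃ m : ℕ, e.norm = m := ⟨e.norm.toNat, by have := nm_nonneg e; omega⟩
  have hn : (D : ℤ) * D = (m : ℤ) ^ 2 * z.norm := by
    have := congrArg Zsqrtd.norm h
    rw [Zsqrtd.norm_natCast, Zsqrtd.norm_mul, pow_two, Zsqrtd.norm_mul, hm] at this
    rw [this]; ring
  have hmD : (m : ℤ) ∣ D := by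
    have : (m : ℤ) ^ 2 ∣ (D : ℤ) ^ 2 := ⟨z.norm, by rw [← hn]; ring⟩
    exact (Int.pow_dvd_pow_iff (by norm_num)).1 this
  obtain ⟨D', hD'⟩ : m ∣ D := by exact_mod_cast hmD
  have hm0 : (m : ℤ) ≠ 0 := by
    rintro h0
    rw [h0] at hmD
    exact hD0 (zero_dvd_iff.1 hmD)
  -- m z = D' (star e)^2
  have h2 : (m : Oz) * z = (D' : Oz) * (star e) ^ 2 := by
    have hmm : (m : Oz) = e * star e := by
      have := Zsqrtd.norm_eq_mul_conj e
      rw [hm] at this
      rw [← this]; simp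
    have hm0' : (m : Oz) ≠ 0 := by
      intro h0
      have : ((m : ℤ) : Oz) = ((0 : ℤ) : Oz) := by simpa using h0
      exact hm0 (by exact_mod_cast this)
    apply mul_left_cancel₀ hm0'
    have hDc : (D : Oz) = (m : Oz) * (D' : Oz) := by rw [hD']; push_cast; ring
    calc (m : Oz) * ((m : Oz) * z) = (star e) ^ 2 * (e ^ 2 * z) := by
          rw [hmm]; ring
      _ = (star e) ^ 2 * (D : Oz) := by rw [← h]
      _ = _ := by rw [hDc]; ring
  have hcop : Nat.Coprime m D' := by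
    rw [hD'] at hD
    exact Nat.coprime_of_squarefree_mul hD
  have hicop : IsCoprime (m : ℤ) (D' : ℤ) := Nat.isCoprime_iff_coprime.2 hcop
  have h3 : ((m : ℤ) : Oz) ∣ (star e) ^ 2 := by
    rw [Zsqrtd.intCast_dvd]
    have hre := congrArg Zsqrtd.re h2
    have him := congrArg Zsqrtd.im h2
    simp only [Zsqrtd.re_mul, Zsqrtd.im_mul, Zsqrtd.re_natCast, Zsqrtd.im_natCast] at hre him
    constructor
    · exact hicop.dvd_of_dvd_mul_left ⟨z.re, by linarith⟩
    · exact hicop.dvd_of_dvd_mul_left ⟨z.im, by linarith⟩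
  obtain ⟨w, hw⟩ := h3
  -- w has norm one
  have hwn : w.norm = 1 := by
    have := congrArg Zsqrtd.norm hw
    rw [pow_two, Zsqrtd.norm_mul, Zsqrtd.norm_conj, hm, Zsqrtd.norm_mul, Zsqrtd.norm_intCast]
      at this
    have h4 : (m : ℤ) * m * w.norm = (m : ℤ) * m * 1 := by rw [← this, mul_one]
    exact mul_left_cancel₀ (mul_ne_zero hm0 hm0) h4
  have hmm : ((m : ℤ) : Oz) = e * star e := by
    rw [← hm]; exact Zsqrtd.norm_eq_mul_conj e
  have he0 : star e ≠ 0 := by
    intro h0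
    rw [h0, mul_zero] at hmm
    exact hm0 (by exact_mod_cast hmm)
  have hst : star e = e * w := by
    apply mul_left_cancel₀ he0
    rw [← pow_two, hw, hmm]; ring
  apply Oz_unit_norm
  rcases Oz_cases_norm_one w hwn with rfl | rfl
  · -- e rational integer
    have him : e.im = 0 := by
      have := congrArg Zsqrtd.im hst
      rw [mul_one, Zsqrtd.im_star] at this
      omega
    have hmre : (m : ℤ) = e.re * e.re := by
      rw [← hm, nm_def, him]; ring
    have h5 : e.re.natAbs * e.re.natAbs ∣ D := by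
      have : m = e.re.natAbs * e.re.natAbs := by
        zify
        rw [hmre, ← abs_mul, abs_of_nonneg (mul_self_nonneg _)]
      rw [← this]; exact ⟨D', hD'⟩
    have h6 := Nat.isUnit_iff.1 (hD _ h5)
    rw [hm, hmre]
    have h7 : e.re = 1 ∨ e.re = -1 := by omega
    rcases h7 with h7 | h7 <;> rw [h7] <;> norm_num
  · exfalso
    have hre : e.re = 0 := by
      have := congrArg Zsqrtd.re hst
      rw [mul_neg, mul_one, Zsqrtd.re_star, Zsqrtd.re_neg] at this
      omega
    have hmim : (m : ℤ) = 2 * (e.im * e.im) := by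
      rw [← hm, nm_def, hre]; ring
    have h2D : (2 : ℤ) ∣ D := (Dvd.intro _ hmim.symm).trans hmD
    obtain ⟨k, hk⟩ := hodd
    omega

end Run7.h246
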