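import Mathlib
import Pool.Agent.Run7.h246.Oring

set_option autoImplicit false

namespace Run7.h246

/-- `i * sqrt 2` -/
noncomputable def rt2 : ℂ := (Real.sqrt 2 : ℂ) * Complex.I

theorem rt2_mul : rt2 * rt2 = ((-2 : ℤ) : ℂ) := by
  unfold rt2
  have h : ((Real.sqrt 2 : ℝ) : ℂ) * ((Real.sqrt 2 : ℝ) : ℂ) = 2 := by
    rw [← Complex.ofReal_mul, Real.mul_self_sqrt (by norm_num)]; norm_num
  calc _ = (((Real.sqrt 2 : ℝ) : ℂ) * ((Real.sqrt 2 : ℝ) : ℂ)) * (Complex.I * Complex.I) := by ring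
    _ = _ := by rw [h, Complex.I_mul_I]; norm_num

/-- embedding of `Z[sqrt(-2)]` -/
noncomputable def emb : Oz →+* ℂ := Zsqrtd.lift ⟨rt2, rt2_mul⟩

theorem emb_def (x : Oz) : emb x = (x.re : ℂ) + (x.im : ℂ) * rt2 := by
  simp [emb]

theorem emb_re (x : Oz) : (emb x).re = x.re := by
  rw [emb_def]; simp [rt2]

theorem emb_im (x : Oz) : (emb x).im = x.im * Real.sqrt 2 := by
  rw [emb_def]; simp [rt2]

theorem normSq_emb (x : Oz) : Complex.normSq (emb x) = (x.norm : ℝ) := by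
  rw [Complex.normSq_apply, emb_re, emb_im, nm_def]
  push_cast
  have : (Real.sqrt 2) * (Real.sqrt 2) = 2 := Real.mul_self_sqrt (by norm_num)
  linear_combination (x.im : ℝ) ^ 2 * this

theorem dirichlet_Oz (th : ℂ) (M : ℕ) (hM : 1 ≤ M) : ∃ x y : Oz, y ≠ 0 ∧
    (y.norm : ℤ) ≤ 3 * (M : ℤ) ^ 2 ∧
    Complex.normSq (emb x - th * emb y) ≤ 3 / (M : ℝ) ^ 2 := by
  classical
  have hM0 : (0 : ℝ) < M := by exact_mod_cast hM
  have hs2 : (Real.sqrt 2) * (Real.sqrt 2) = 2 := Real.mul_self_sqrt (by norm_num)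
  have hs0 : 0 < Real.sqrt 2 := Real.sqrt_pos.2 (by norm_num)
  let Y : ℕ × ℕ → Oz := fun a => ⟨a.1, a.2⟩
  let u : ℕ × ℕ → ℝ := fun a => (th * emb (Y a)).re
  let w : ℕ × ℕ → ℝ := fun a => (th * emb (Y a)).im / Real.sqrt 2
  let bx : ℕ × ℕ → ℕ × ℕ := fun a =>
    (⌊(M : ℝ) * Int.fract (u a)⌋₊, ⌊(M : ℝ) * Int.fract (w a)⌋₊)
  have hmaps : ∀ a ∈ (Finset.range (M + 1)) ×ˢ (Finset.range (M + 1)),
      bx a ∈ (Finset.range M) ×ˢ (Finset.range M) := by
    intro a _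
    rw [Finset.mem_product, Finset.mem_range, Finset.mem_range]
    have key : ∀ r : ℝ, ⌊(M : ℝ) * Int.fract r⌋₊ < M := by
      intro r
      rw [Nat.floor_lt (mul_nonneg hM0.le (Int.fract_nonneg r))]
      nlinarith [Int.fract_lt_one r, Int.fract_nonneg r]
    exact ⟨key _, key _⟩
  have hcard : ((Finset.range M) ×ˢ (Finset.range M)).card <
      ((Finset.range (M + 1)) ×ˢ (Finset.range (M + 1))).card := by
    rw [Finset.card_product, Finset.card_product, Finset.card_range, Finset.card_range]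
    nlinarith
  obtain ⟨a, ha, b, hb, hab, heq⟩ := Finset.exists_ne_map_eq_of_card_lt_of_maps_to hcard hmaps
  rw [Finset.mem_product, Finset.mem_range, Finset.mem_range] at ha hb
  rw [Prod.mk.injEq] at heq
  obtain ⟨h1, h2⟩ := heq
  have close : ∀ r s : ℝ, ⌊(M : ℝ) * Int.fract r⌋₊ = ⌊(M : ℝ) * Int.fract s⌋₊ →
      (Int.fract r - Int.fract s) ^ 2 ≤ 1 / (M : ℝ) ^ 2 := by
    intro r s hrs
    have r1 := Nat.floor_le (mul_nonneg hM0.le (Int.fract_nonneg r))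
    have r2 := Nat.lt_floor_add_one ((M : ℝ) * Int.fract r)
    have s1 := Nat.floor_le (mul_nonneg hM0.le (Int.fract_nonneg s))
    have s2 := Nat.lt_floor_add_one ((M : ℝ) * Int.fract s)
    rw [hrs] at r1 r2
    rw [le_div_iff₀ (by positivity)]
    have h3 : (M : ℝ) * (Int.fract r - Int.fract s) < 1 := by linarith
    have h4 : -1 < (M : ℝ) * (Int.fract r - Int.fract s) := by linarith
    have h5 : (Int.fract r - Int.fract s) ^ 2 * (M : ℝ) ^ 2 =
      ((M : ℝ) * (Int.fract r - Int.fract s)) ^ 2 := by ring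
    rw [h5]
    nlinarith
  refine ⟨⟨⌊u a⌋ - ⌊u b⌋, ⌊w a⌋ - ⌊w b⌋⟩, Y a - Y b, ?_, ?_, ?_⟩
  · intro h0
    apply hab
    have e1 := congrArg Zsqrtd.re h0
    have e2 := congrArg Zsqrtd.im h0
    simp only [Zsqrtd.re_sub, Zsqrtd.im_sub, Zsqrtd.re_zero, Zsqrtd.im_zero, Y] at e1 e2
    exact Prod.ext (by omega) (by omega)
  · rw [nm_def]
    simp only [Zsqrtd.re_sub, Zsqrtd.im_sub, Y]
    have f : ∀ p q : ℕ, p < M + 1 → q < M + 1 → ((p : ℤ) - q) ^ 2 ≤ (M : ℤ) ^ 2 := by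
      intro p q hp hq
      apply sq_le_sq'
      · omega
      · omega
    have f1 := f a.1 b.1 ha.1 hb.1
    have f2 := f a.2 b.2 ha.2 hb.2
    linarith
  · have hc1 := close _ _ h1
    have hc2 := close _ _ h2
    have e1 : (emb ⟨⌊u a⌋ - ⌊u b⌋, ⌊w a⌋ - ⌊w b⌋⟩ - th * emb (Y a - Y b)).re =
        -(Int.fract (u a) - Int.fract (u b)) := by
      rw [Complex.sub_re, emb_re, map_sub, mul_sub, Complex.sub_re]
      simp only [Int.fract, u]
      push_cast
      ring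
    have e2 : (emb ⟨⌊u a⌋ - ⌊u b⌋, ⌊w a⌋ - ⌊w b⌋⟩ - th * emb (Y a - Y b)).im =
        -(Int.fract (w a) - Int.fract (w b)) * Real.sqrt 2 := by
      have ha' : (th * emb (Y a)).im = w a * Real.sqrt 2 := by
        simp only [w]; rw [div_mul_cancel₀ _ hs0.ne']
      have hb' : (th * emb (Y b)).im = w b * Real.sqrt 2 := by
        simp only [w]; rw [div_mul_cancel₀ _ hs0.ne']
      rw [Complex.sub_im, emb_im, map_sub, mul_sub, Complex.sub_im, ha', hb']
      simp only [Int.fract]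
      push_cast
      ring
    rw [Complex.normSq_apply, e1, e2]
    have e3 : -(Int.fract (u a) - Int.fract (u b)) * -(Int.fract (u a) - Int.fract (u b)) +
        -(Int.fract (w a) - Int.fract (w b)) * Real.sqrt 2 *
          (-(Int.fract (w a) - Int.fract (w b)) * Real.sqrt 2) =
        (Int.fract (u a) - Int.fract (u b)) ^ 2 + 2 * (Int.fract (w a) - Int.fract (w b)) ^ 2 := by
      linear_combination (Int.fract (w a) - Int.fract (w b)) ^ 2 * hs2
    rw [e3]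
    have e4 : 3 / (M : ℝ) ^ 2 = 1 / (M : ℝ) ^ 2 + 2 * (1 / (M : ℝ) ^ 2) := by ring
    rw [e4]
    linarith

end Run7.h246
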