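import Mathlib

set_option autoImplicit false

namespace Run7.h246

open Pell

theorem pow_odd_y (d : ℤ) (hd : Even d) (a : Solution₁ d) (l : ℕ) :
    ∃ c : ℤ, Odd c ∧ (a ^ (2 * l + 1)).y = a.y * c := by
  induction l with
  | zero => exact ⟨1, odd_one, by simp⟩
  | succ l ih =>
    obtain ⟨c, hc, h⟩ := ih
    obtain ⟨d', hd'⟩ := hd
    have e : a ^ (2 * (l + 1) + 1) = a ^ (2 * l + 1) * (a * a) := by
      rw [show 2 * (l + 1) + 1 = 2 * l + 1 + 2 by ring, pow_add]
      congr 1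
      exact pow_two a
    refine ⟨2 * ((a ^ (2 * l + 1)).x * a.x) + c * (1 + 2 * (d * a.y ^ 2)), ?_, ?_⟩
    · apply Even.add_odd
      · exact even_two_mul _
      · apply hc.mul
        exact ⟨d * a.y ^ 2, by ring⟩
    · have hp := a.prop_x
      rw [e, Solution₁.y_mul, Solution₁.y_mul, Solution₁.x_mul, h]
      linear_combination (a.y * c) * hp

/-- all nontrivial solutions of `x^2 - 2 D y^2 = 1` are large -/
theorem pell_large (D v : ℤ) (n : ℕ) (hn : Odd n) (hn3 : 3 ≤ n) (hD : 0 < D)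
    (h : 1 + D * v ^ 2 = 2 ^ n) (x y : ℤ) (hy : y ≠ 0) (hxy : x ^ 2 - 2 * D * y ^ 2 = 1) :
    (2 : ℤ) ^ (n + 1) - 1 ≤ |x| := by
  obtain ⟨m, hm⟩ := hn
  have hm1 : 1 ≤ m := by omega
  -- v odd, D odd
  have hDv : D * v ^ 2 = 2 * 2 ^ (2 * m) - 1 := by
    have : (2 : ℤ) ^ (2 * m + 1) = 2 * 2 ^ (2 * m) := by ring
    rw [hm, this] at h; linarith
  have hvo : Odd v := by
    by_contra hv
    rw [Int.not_odd_iff_even] at hv
    obtain ⟨w, rfl⟩ := hv
    have : D * (w + w) ^ 2 = 2 * (2 * D * w ^ 2) := by ring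
    omega
  have hDo : Odd D := by
    by_contra hv
    rw [Int.not_odd_iff_even] at hv
    obtain ⟨w, rfl⟩ := hv
    have : (w + w) * v ^ 2 = 2 * (w * v ^ 2) := by ring
    omega
  have hvne : v ≠ 0 := by rintro rfl; exact absurd hvo (by decide)
  -- 2D is not a square
  have hns : ¬ IsSquare (2 * D) := by
    rintro ⟨r, hr⟩
    have hre : Even r := by
      by_contra hro
      rw [Int.not_even_iff_odd] at hro
      have := hro.mul hro
      rw [← hr] at this
      exact (Int.not_even_iff_odd.2 this) (even_two_mul D)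
    obtain ⟨s, rfl⟩ := hre
    have : D = 2 * (s * s) := by linarith
    obtain ⟨k, hk⟩ := hDo
    omega
  obtain ⟨a, ha⟩ := IsFundamental.exists_of_not_isSquare (d := 2 * D) (by linarith) hns
  -- the known solution
  have hknown : ((2 : ℤ) ^ (n + 1) - 1) ^ 2 - (2 * D) * (2 ^ (m + 1) * |v|) ^ 2 = 1 := by
    have e1 : (2 * D) * (2 ^ (m + 1) * |v|) ^ 2 = 2 * (2 ^ (m + 1)) ^ 2 * (D * v ^ 2) := by
      rw [mul_pow, sq_abs]; ring
    rw [e1, hDv, hm]
    ring
  have hpow1 : (1 : ℤ) ≤ 2 ^ (2 * m) := one_le_pow₀ (by norm_num)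
  have e2 : (2 : ℤ) ^ (n + 1) = 4 * 2 ^ (2 * m) := by rw [hm]; ring
  obtain ⟨k, hk⟩ := ha.eq_pow_of_nonneg (a := Solution₁.mk _ _ hknown)
    (by rw [Solution₁.x_mk]; linarith) (by rw [Solution₁.y_mk]; positivity)
  have hkx := congrArg Solution₁.x hk
  have hky := congrArg Solution₁.y hk
  rw [Solution₁.x_mk] at hkx
  rw [Solution₁.y_mk] at hky
  -- k is odd
  have hko : Odd k := by
    by_contra hke
    rw [Nat.not_odd_iff_even] at hke
    obtain ⟨l, hl⟩ := hke
    rw [hl, show a ^ (l + l) = a ^ l * a ^ l from pow_add a l l, Solution₁.x_mul] at hkx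
    have hp := (a ^ l).prop_x
    have h2 : (2 : ℤ) ^ (2 * m) * 2 = ((a ^ l).x) ^ 2 := by
      have : 2 * ((a ^ l).x) ^ 2 = 4 * 2 ^ (2 * m) := by
        rw [e2] at hkx
        linear_combination -hkx + hp
      linarith
    -- 2 * (2^m)^2 = x^2
    set X := (a ^ l).x
    have h3 : (2 : ℤ) ^ m ∣ X := by
      have : ((2 : ℤ) ^ m) ^ 2 ∣ X ^ 2 := ⟨2, by rw [← h2]; ring⟩
      exact (Int.pow_dvd_pow_iff (by norm_num)).1 this
    obtain ⟨X', hX'⟩ := h3
    rw [hX'] at h2
    have h4 : X' ^ 2 = 2 := by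
      have h5 : ((2 : ℤ) ^ m) ^ 2 ≠ 0 := by positivity
      apply mul_left_cancel₀ h5
      linear_combination -h2
    have h6 : X' ≤ 1 ∨ 2 ≤ X' := by omega
    have h7 : -1 ≤ X' ∨ X' ≤ -2 := by omega
    rcases h6 with h6 | h6 <;> rcases h7 with h7 | h7
    · have : X' = -1 ∨ X' = 0 ∨ X' = 1 := by omega
      rcases this with h | h | h <;> rw [h] at h4 <;> norm_num at h4
    · nlinarith
    · nlinarith
    · omega
  obtain ⟨l, hl⟩ := hko
  obtain ⟨c, hc, hyc⟩ := pow_odd_y (2 * D) (even_two_mul D) a l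
  rw [hl, hyc] at hky
  have hdiv : (2 : ℤ) ^ (m + 1) ∣ a.y := by
    have hcp : IsCoprime ((2 : ℤ) ^ (m + 1)) c := by
      apply IsCoprime.pow_left
      obtain ⟨z, hz⟩ := hc
      exact ⟨-z, 1, by rw [hz]; ring⟩
    apply hcp.dvd_of_dvd_mul_right
    rw [← hky]
    exact dvd_mul_right _ _
  obtain ⟨y', hy'⟩ := hdiv
  -- bound for the fundamental solution
  have hax : (2 : ℤ) ^ (n + 1) - 1 ≤ a.x := by
    have hp := a.prop_x
    have hxo : Odd a.x := by
      by_contra hxe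
      rw [Int.not_odd_iff_even] at hxe
      have h1 : Even (a.x ^ 2) := Int.even_pow.2 ⟨hxe, by norm_num⟩
      rw [hp] at h1
      have h2 : Odd (1 + 2 * D * a.y ^ 2) := ⟨D * a.y ^ 2, by ring⟩
      exact (Int.not_even_iff_odd.2 h2) h1
    obtain ⟨z, hz⟩ := hxo
    have hz1 : 1 ≤ z := by have := ha.1; omega
    have h3 : z * (z + 1) = 2 ^ n * (D * y' ^ 2) := by
      have : 4 * (z * (z + 1)) = 4 * (2 ^ n * (D * y' ^ 2)) := by
        rw [hz, hy'] at hp
        rw [hm]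
        linear_combination hp
      linarith
    have hge : (2 : ℤ) ^ n ≤ z + 1 := by
      rcases Int.even_or_odd z with hze | hzo
      · have hcp : IsCoprime ((2 : ℤ) ^ n) (z + 1) := by
          apply IsCoprime.pow_left
          obtain ⟨w, hw⟩ := hze
          exact ⟨-w, 1, by rw [hw]; ring⟩
        have : (2 : ℤ) ^ n ∣ z := hcp.dvd_of_dvd_mul_right ⟨_, h3⟩
        have := Int.le_of_dvd (by omega) this
        omega
      · have hcp : IsCoprime ((2 : ℤ) ^ n) z := by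
          apply IsCoprime.pow_left
          obtain ⟨w, hw⟩ := hzo
          exact ⟨-w, 1, by rw [hw]; ring⟩
        have : (2 : ℤ) ^ n ∣ z + 1 := hcp.dvd_of_dvd_mul_left ⟨_, h3⟩
        exact Int.le_of_dvd (by omega) this
    have : (2 : ℤ) ^ (n + 1) = 2 * 2 ^ n := by ring
    rw [this, hz]
    linarith
  refine hax.trans ?_
  have hb : |x| ^ 2 - (2 * D) * y ^ 2 = 1 := by rw [sq_abs]; exact hxy
  have hx1 : 1 < |x| := by
    have hy1 : 1 ≤ y ^ 2 := by
      have := sq_pos_of_ne_zero hy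
      omega
    by_contra hcon
    push Not at hcon
    have h0 := abs_nonneg x
    nlinarith
  have := ha.x_le_x (a := Solution₁.mk _ _ hb) (by rw [Solution₁.x_mk]; exact hx1)
  rw [Solution₁.x_mk] at this
  exact this

end Run7.h246
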