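import Mathlib
import Pool.Agent.Run7.h246.OrdC
import Pool.Agent.Run7.h246.Oring
import Pool.Agent.Run7.h246.PellA

set_option autoImplicit false

namespace Run7.h246

/-- composition of forms over any commutative ring, with the two consequences we need -/
theorem compose_ring {R : Type*} [CommRing R] (A B C A' B' C' s t r u s' t' r' u' : R)
    (h : s * u - r * t = 1) (h' : s' * u' - r' * t' = 1)
    (ha : A * s ^ 2 + B * s * r + C * r ^ 2 = A' * s' ^ 2 + B' * s' * r' + C' * r' ^ 2)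
    (hb : 2 * A * s * t + B * (s * u + r * t) + 2 * C * r * u =
      2 * A' * s' * t' + B' * (s' * u' + r' * t') + 2 * C' * r' * u')
    (hc : A * t ^ 2 + B * t * u + C * u ^ 2 = A' * t' ^ 2 + B' * t' * u' + C' * u' ^ 2) :
    ∃ p q v w : R, p * w - q * v = 1 ∧ A * p ^ 2 + B * p * v + C * v ^ 2 = A' ∧
      2 * A * p * q + B * (p * w + q * v) + 2 * C * v * w = B' ∧
      A * q ^ 2 + B * q * w + C * w ^ 2 = C' ∧
      s = p * s' + q * r' ∧ r = v * s' + w * r' := by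
  refine ⟨s * u' - t * r', -s * t' + t * s', r * u' - u * r', -r * t' + u * s', ?_, ?_, ?_, ?_,
    ?_, ?_⟩
  · linear_combination h' + (s' * u' - r' * t') * h
  · linear_combination u' ^ 2 * ha - u' * r' * hb + r' ^ 2 * hc +
      A' * (s' * u' - r' * t' + 1) * h'
  · linear_combination -2 * u' * t' * ha + (u' * s' + t' * r') * hb - 2 * r' * s' * hc +
      B' * (s' * u' - r' * t' + 1) * h'
  · linear_combination t' ^ 2 * ha - t' * s' * hb + s' ^ 2 * hc +
      C' * (s' * u' - r' * t' + 1) * h'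
  · linear_combination -s * h'
  · linear_combination -r * h'

/-- lifting a square root of `-D` modulo powers of two -/
theorem lift_root (D B : ℤ) (hB : Odd B) (N : ℕ) (hN : 3 ≤ N) (h : (2 : ℤ) ^ N ∣ B ^ 2 + D)
    (j : ℕ) : ∃ B' : ℤ, (2 : ℤ) ^ (N + j) ∣ B' ^ 2 + D ∧ (2 : ℤ) ^ (N - 1) ∣ B' - B := by
  induction j with
  | zero => exact ⟨B, h, by simp⟩
  | succ j ih =>
    obtain ⟨B1, ⟨t, ht⟩, ⟨z, hz⟩⟩ := ih
    rcases Int.even_or_odd t with hte | hto
    · obtain ⟨t', rfl⟩ := hte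
      exact ⟨B1, ⟨t', by rw [ht]; ring⟩, ⟨z, hz⟩⟩
    · obtain ⟨M, rfl⟩ : ∃ M, N = M + 3 := ⟨N - 3, by omega⟩
      have hB1 : Odd B1 := by
        have h4 : B1 = B + 2 * (2 ^ (M + 1) * z) := by
          have : (2 : ℤ) ^ (M + 3 - 1) = 2 * 2 ^ (M + 1) := by
            rw [show M + 3 - 1 = M + 1 + 1 by omega]; ring
          rw [this] at hz
          linarith
        rw [h4]
        exact hB.add_even (even_two_mul _)
      obtain ⟨b, hb⟩ := hB1
      obtain ⟨t', ht'⟩ := hto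
      refine ⟨B1 + 2 ^ (M + j + 2), ⟨t' + b + 1 + 2 ^ (M + j), ?_⟩, ?_⟩
      · have e1 : (2 : ℤ) ^ (M + 3 + (j + 1)) = 16 * 2 ^ (M + j) := by ring
        have e2 : (2 : ℤ) ^ (M + j + 2) = 4 * 2 ^ (M + j) := by ring
        have e3 : (2 : ℤ) ^ (M + 3 + j) = 8 * 2 ^ (M + j) := by ring
        rw [e1, e2]
        rw [e3, ht'] at ht
        have : (B1 + 4 * 2 ^ (M + j)) ^ 2 + D = (B1 ^ 2 + D) + 8 * 2 ^ (M + j) * B1 +
          16 * (2 ^ (M + j)) ^ 2 := by ring
        rw [this, ht, hb]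
        ring
      · refine ⟨z + 2 ^ j, ?_⟩
        have e4 : (2 : ℤ) ^ (M + 3 - 1) = 4 * 2 ^ M := by
          rw [show M + 3 - 1 = M + 2 by omega]; ring
        have e5 : (2 : ℤ) ^ (M + j + 2) = 4 * 2 ^ M * 2 ^ j := by ring
        rw [e4] at hz ⊢
        rw [e5]
        linear_combination hz

/-- norm identity -/
theorem norm_identity (D : ℤ) (X Y : Oz) :
    (X.norm - D * Y.norm) ^ 2 + 4 * D * (X.re * Y.re + 2 * X.im * Y.im) ^ 2 =
      (X ^ 2 + (D : Oz) * Y ^ 2).norm := by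
  rw [nm_def, nm_def, nm_def]
  simp only [pow_two, Zsqrtd.re_add, Zsqrtd.im_add, Zsqrtd.re_mul, Zsqrtd.im_mul,
    Zsqrtd.re_intCast, Zsqrtd.im_intCast]
  ring

/-- relative units of norm one come from the Pell equation -/
theorem rel_unit (D : ℤ) (hD : D % 8 = 7) (hD0 : 0 < D) (X Y z : Oz) (hz : X - Y = 2 * z)
    (h : X ^ 2 + (D : Oz) * Y ^ 2 = 4) (hY : Y ≠ 0) :
    ∃ x y : ℤ, y ≠ 0 ∧ x ^ 2 - 2 * D * y ^ 2 = 1 ∧ X = ⟨2 * x, 0⟩ ∧ Y = ⟨0, 2 * y⟩ := by
  have hn := norm_identity D X Y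
  rw [h] at hn
  have h4 : ((4 : Oz)).norm = 16 := by
    rw [nm_def]; simp
  rw [h4] at hn
  have hzero : X.re * Y.re + 2 * X.im * Y.im = 0 := by
    by_contra hne
    have : 1 ≤ (X.re * Y.re + 2 * X.im * Y.im) ^ 2 := by
      have := sq_pos_of_ne_zero hne
      omega
    have hD7 : 7 ≤ D := by omega
    nlinarith [sq_nonneg (X.norm - D * Y.norm), mul_nonneg (sub_nonneg.2 hD7)
      (sq_nonneg (X.re * Y.re + 2 * X.im * Y.im))]
  have hre := congrArg Zsqrtd.re h
  have him := congrArg Zsqrtd.im h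
  simp only [pow_two, Zsqrtd.re_add, Zsqrtd.im_add, Zsqrtd.re_mul, Zsqrtd.im_mul,
    Zsqrtd.re_intCast, Zsqrtd.im_intCast, Zsqrtd.re_ofNat, Zsqrtd.im_ofNat] at hre him
  have hzre := congrArg Zsqrtd.re hz
  have hzim := congrArg Zsqrtd.im hz
  simp only [Zsqrtd.re_sub, Zsqrtd.im_sub, Zsqrtd.re_mul, Zsqrtd.im_mul,
    Zsqrtd.re_ofNat, Zsqrtd.im_ofNat] at hzre hzim
  push_cast at hzre hzim hre him
  set x1 := X.re
  set x2 := X.im
  set y1 := Y.re
  set y2 := Y.im
  have hxx : x1 * x2 = - D * (y1 * y2) := by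
    have : 2 * (x1 * x2) = 2 * (- D * (y1 * y2)) := by push_cast at him; linarith
    omega
  have hyy : y1 * y2 = 0 := by
    by_contra hne
    have hy1 : y1 ≠ 0 := left_ne_zero_of_mul hne
    have hy2 : y2 ≠ 0 := right_ne_zero_of_mul hne
    -- x1 y1 = -2 x2 y2 ; multiply by x2 : -D y1^2 y2 = -2 x2^2 y2
    have e1 : D * y1 ^ 2 = 2 * x2 ^ 2 := by
      have : y2 * (D * y1 ^ 2) = y2 * (2 * x2 ^ 2) := by
        linear_combination y1 * hxx - x2 * hzero
      exact mul_left_cancel₀ hy2 this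
    -- 2-adic contradiction by infinite descent on |y1|
    have key : ∀ N : ℕ, ∀ a b : ℤ, a.natAbs ≤ N → D * a ^ 2 = 2 * b ^ 2 → a = 0 := by
      intro N
      induction N with
      | zero => intro a b ha _; omega
      | succ N ih =>
        intro a b ha hab
        by_contra ha0
        have hae : Even a := by
          by_contra hao
          rw [Int.not_even_iff_odd] at hao
          have h1 : Odd (D * a ^ 2) := by
            apply Odd.mul _ hao.pow
            exact ⟨D / 2, by omega⟩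
          rw [hab] at h1
          exact (Int.not_even_iff_odd.2 h1) (even_two_mul _)
        obtain ⟨a', rfl⟩ := hae
        have h2 : D * a' ^ 2 * 2 = b ^ 2 := by linarith
        have hbe : Even b := by
          by_contra hbo
          rw [Int.not_even_iff_odd] at hbo
          have h1 : Odd (b ^ 2) := hbo.pow
          rw [← h2] at h1
          exact (Int.not_even_iff_odd.2 h1) (even_two.mul_left _)
        obtain ⟨b', rfl⟩ := hbe
        have h3 : D * a' ^ 2 = 2 * b' ^ 2 := by linarith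
        have := ih a' b' (by omega) h3
        omega
    exact hy1 (key y1.natAbs y1 x2 le_rfl e1)
  rcases mul_eq_zero.1 hyy with hy1 | hy2
  · have hy2 : y2 ≠ 0 := by
      intro h0
      exact hY (Zsqrtd.ext hy1 h0)
    have hx2 : x2 = 0 := by
      rw [hy1, mul_zero, zero_add] at hzero
      rcases mul_eq_zero.1 hzero with h | h
      · omega
      · exact absurd h hy2
    obtain ⟨a, ha⟩ : ∃ a, x1 = 2 * a := ⟨z.re, by rw [hy1] at hzre; linarith⟩
    obtain ⟨b, hb⟩ : ∃ b, y2 = 2 * b := ⟨-z.im, by rw [hx2] at hzim; linarith⟩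
    refine ⟨a, b, ?_, ?_, ?_, ?_⟩
    · rintro rfl; exact hy2 (by rw [hb]; ring)
    · rw [ha, hb, hx2, hy1] at hre
      push_cast at hre
      linarith
    · exact Zsqrtd.ext ha hx2
    · exact Zsqrtd.ext hy1 hb
  · exfalso
    have hy1 : y1 ≠ 0 := by
      intro h0
      exact hY (Zsqrtd.ext h0 hy2)
    have hx1 : x1 = 0 := by
      rw [hy2, mul_zero, add_zero] at hzero
      rcases mul_eq_zero.1 hzero with h | h
      · exact h
      · exact absurd h hy1
    obtain ⟨a, ha⟩ : ∃ a, y1 = 2 * a := ⟨-z.re, by rw [hx1] at hzre; linarith⟩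
    obtain ⟨b, hb⟩ : ∃ b, x2 = 2 * b := ⟨z.im, by rw [hy2] at hzim; linarith⟩
    rw [ha, hb, hx1, hy2] at hre
    have h5 : D * a ^ 2 - 2 * b ^ 2 = 1 := by push_cast at hre; linarith
    -- mod 8
    have h6 : (D * a ^ 2 - 2 * b ^ 2) % 8 = 1 := by rw [h5]; norm_num
    have ha8 : a % 8 = 0 ∨ a % 8 = 1 ∨ a % 8 = 2 ∨ a % 8 = 3 ∨ a % 8 = 4 ∨ a % 8 = 5 ∨
      a % 8 = 6 ∨ a % 8 = 7 := by omega
    have hb8 : b % 8 = 0 ∨ b % 8 = 1 ∨ b % 8 = 2 ∨ b % 8 = 3 ∨ b % 8 = 4 ∨ b % 8 = 5 ∨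
      b % 8 = 6 ∨ b % 8 = 7 := by omega
    rcases ha8 with ha8 | ha8 | ha8 | ha8 | ha8 | ha8 | ha8 | ha8 <;>
      rcases hb8 with hb8 | hb8 | hb8 | hb8 | hb8 | hb8 | hb8 | hb8 <;>
      simp [pow_two, Int.sub_emod, Int.mul_emod, hD, ha8, hb8] at h6

end Run7.h246
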