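import Mathlib
import Pool.Agent.Run7.h246.RelUnit

set_option autoImplicit false

namespace Run7.h246

theorem orient (B D : ℤ) (hBo : Odd B) (N : ℕ) (hB : (2 : ℤ) ^ N ∣ B ^ 2 + D) (k : ℕ)
    (hkn : k + 2 ≤ N) (x y : ℤ) (hx : Odd x) (hy : Odd y)
    (hxy : x ^ 2 + D * y ^ 2 = 2 ^ (k + 2)) : ∃ y' : ℤ, (y' = y ∨ y' = -y) ∧ Pk B D k x y' := by
  obtain ⟨t, ht⟩ : (2 : ℤ) ^ (k + 2) ∣ B ^ 2 + D := (pow_dvd_pow 2 hkn).trans hB
  obtain ⟨a, ha⟩ : ∃ a, x - B * y = 2 * a := by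
    obtain ⟨x1, hx1⟩ := hx
    obtain ⟨y1, hy1⟩ := hy
    obtain ⟨b1, hb1⟩ := hBo
    exact ⟨x1 - b1 * y - y1, by rw [hx1, hy1, hb1]; ring⟩
  have hc : x + B * y = 2 * (x - a) := by linarith
  have hprod : a * (x - a) = 2 ^ k * (1 - t * y ^ 2) := by
    have e4 : (2 : ℤ) ^ (k + 2) = 4 * 2 ^ k := by ring
    rw [e4] at ht hxy
    have : 4 * (a * (x - a)) = 4 * (2 ^ k * (1 - t * y ^ 2)) := by
      linear_combination hxy - y ^ 2 * ht - (x + B * y) * ha - 2 * a * hc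
    linarith
  rcases Int.even_or_odd a with hae | hao
  · have hodd : Odd (x - a) := hx.sub_even hae
    have hcp : IsCoprime ((2 : ℤ) ^ k) (x - a) := by
      apply IsCoprime.pow_left
      obtain ⟨w, hw⟩ := hodd
      exact ⟨-w, 1, by rw [hw]; ring⟩
    have hd : (2 : ℤ) ^ k ∣ a := hcp.dvd_of_dvd_mul_right ⟨_, hprod⟩
    refine ⟨y, Or.inl rfl, hxy, ?_⟩
    obtain ⟨c, hc'⟩ := hd
    exact ⟨c, by rw [ha, hc']; ring⟩
  · have hcp : IsCoprime ((2 : ℤ) ^ k) a := by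
      apply IsCoprime.pow_left
      obtain ⟨w, hw⟩ := hao
      exact ⟨-w, 1, by rw [hw]; ring⟩
    have hd : (2 : ℤ) ^ k ∣ (x - a) := hcp.dvd_of_dvd_mul_left ⟨_, hprod⟩
    refine ⟨-y, Or.inr rfl, by rw [← hxy]; ring, ?_⟩
    obtain ⟨c, hc'⟩ := hd
    refine ⟨c, ?_⟩
    have : x - B * -y = x + B * y := by ring
    rw [this, hc, hc']; ring

/-- basic facts about `D`, `v`, and a very good square root `B` of `-D` -/
theorem setup (D v : ℤ) (n : ℕ) (hn3 : 3 ≤ n)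
    (h : 1 + D * v ^ 2 = 2 ^ n) : Odd v ∧ Odd D ∧ D % 8 = 7 ∧
    ∃ B : ℤ, Odd B ∧ (2 : ℤ) ^ (2 * n) ∣ B ^ 2 + D := by
  obtain ⟨n', rfl⟩ : ∃ n', n = n' + 3 := ⟨n - 3, by omega⟩
  have hDv : D * v ^ 2 = 8 * 2 ^ n' - 1 := by
    have : (2 : ℤ) ^ (n' + 3) = 8 * 2 ^ n' := by ring
    rw [this] at h; linarith
  have hvo : Odd v := by
    by_contra hv
    rw [Int.not_odd_iff_even] at hv
    obtain ⟨w, rfl⟩ := hv
    have : D * (w + w) ^ 2 = 2 * (2 * D * w ^ 2) := by ring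
    omega
  have hDo : Odd D := by
    by_contra hv
    rw [Int.not_odd_iff_even] at hv
    obtain ⟨w, rfl⟩ := hv
    have : (w + w) * v ^ 2 = 2 * (w * v ^ 2) := by ring
    omega
  have hD8 : D % 8 = 7 := by
    obtain ⟨w, hw⟩ := hvo
    have h1 : (8 : ℤ) ∣ v ^ 2 - 1 := by
      rw [hw]
      have h2 : (2 * w + 1) ^ 2 - 1 = 4 * (w * (w + 1)) := by ring
      rw [h2]
      obtain ⟨c, hc⟩ := Int.even_mul_succ_self w
      exact ⟨c, by rw [hc]; ring⟩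
    obtain ⟨c, hc⟩ := h1
    have h3 : D * v ^ 2 = D + 8 * (D * c) := by
      linear_combination D * hc
    omega
  refine ⟨hvo, hDo, hD8, ?_⟩
  have h8 : (2 : ℤ) ^ 3 ∣ 1 ^ 2 + D := by
    norm_num
    omega
  obtain ⟨B, hB, hB2⟩ := lift_root D 1 odd_one 3 le_rfl h8 (2 * n' + 3)
  refine ⟨B, ?_, ?_⟩
  · obtain ⟨c, hc⟩ := hB2
    exact ⟨2 * c, by norm_num at hc; linarith⟩
  · have : 2 * (n' + 3) = 3 + (2 * n' + 3) := by ring
    rw [this]; exact hB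

/-- no element of relative norm `2^d` in the `d`-th power of the prime above two -/
theorem no_small_rel (D v : ℤ) (n : ℕ) (hn : Odd n) (hn3 : 3 ≤ n) (hD : 0 < D)
    (h : 1 + D * v ^ 2 = 2 ^ n) (B : ℤ) (hBo : Odd B) (hB : (2 : ℤ) ^ (2 * n) ∣ B ^ 2 + D)
    (d : ℕ) (hd1 : 1 ≤ d) (hd : d + 3 ≤ n) (p w l : Oz)
    (hl : (B : Oz) * l = 2 ^ d * w - p)
    (hX : (2 * p + (B : Oz) * l) ^ 2 + (D : Oz) * l ^ 2 = 2 ^ (d + 2)) : False := by
  obtain ⟨hvo, hDo, hD8, -⟩ := setup D v n hn3 h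
  have hD7 : 7 ≤ D := by omega
  obtain ⟨n', rfl⟩ : ∃ n', n = n' + 3 := ⟨n - 3, by omega⟩
  obtain ⟨t, ht⟩ := hB
  have hXe : 2 * p + (B : Oz) * l = 2 ^ (d + 1) * w - (B : Oz) * l := by
    linear_combination 2 * hl
  rw [hXe] at hX
  set X : Oz := 2 ^ (d + 1) * w - (B : Oz) * l with hXdef
  have hre : X.re = 2 ^ (d + 1) * w.re - B * l.re := by
    rw [hXdef]
    have : ((2 : Oz) ^ (d + 1)) = (((2 : ℤ) ^ (d + 1) : ℤ) : Oz) := by push_cast; rfl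
    rw [this]
    simp only [Zsqrtd.re_sub, Zsqrtd.re_mul, Zsqrtd.re_intCast, Zsqrtd.im_intCast]
    ring
  have him : X.im = 2 ^ (d + 1) * w.im - B * l.im := by
    rw [hXdef]
    have : ((2 : Oz) ^ (d + 1)) = (((2 : ℤ) ^ (d + 1) : ℤ) : Oz) := by push_cast; rfl
    rw [this]
    simp only [Zsqrtd.im_sub, Zsqrtd.im_mul, Zsqrtd.re_intCast, Zsqrtd.im_intCast]
    ring
  have hid := norm_identity D X l
  rw [hX] at hid
  have hpn : (((2 : Oz) ^ (d + 2))).norm = 4 * 4 ^ (d + 1) := by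
    have : ((2 : Oz) ^ (d + 2)) = (((2 : ℤ) ^ (d + 2) : ℤ) : Oz) := by push_cast; rfl
    rw [this, Zsqrtd.norm_intCast]
    have : (4 : ℤ) ^ (d + 1) = 2 ^ (d + 1) * 2 ^ (d + 1) := by
      rw [← mul_pow]; norm_num
    rw [this]; ring
  rw [hpn] at hid
  set T : ℤ := w.re * l.re + 2 * (w.im * l.im) with hT
  set x' : ℤ := 2 * 4 ^ d * w.norm - 2 ^ (d + 1) * B * T +
    (B ^ 2 - 2 ^ (2 * (n' + 3) - 1) * t) * l.norm with hx'
  set z : ℤ := X.re * l.re + 2 * X.im * l.im with hz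
  have e22 : (2 : ℤ) ^ (2 * (n' + 3)) = 2 * 2 ^ (2 * (n' + 3) - 1) := by
    rw [← pow_succ']; congr 1
  have hzT : z = 2 ^ (d + 1) * T - B * l.norm := by
    rw [hz, hre, him, hT, nm_def]; ring
  have h4d : (4 : ℤ) ^ d = 2 ^ d * 2 ^ d := by rw [← mul_pow]; norm_num
  have h2x : 2 * x' = X.norm - D * l.norm := by
    rw [hx', nm_def X, hre, him, nm_def w, nm_def l, hT]
    rw [e22] at ht
    have e1 : (2 : ℤ) ^ (d + 1) = 2 * 2 ^ d := by ring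
    rw [e1, h4d]
    linear_combination (l.re ^ 2 + 2 * l.im ^ 2) * ht
  have hnorm : x' ^ 2 + D * (-z) ^ 2 = 2 ^ (2 * d + 2) := by
    rw [← h2x] at hid
    have e1 : (2 : ℤ) ^ (2 * d + 2) = 4 ^ (d + 1) := by
      rw [show 2 * d + 2 = 2 * (d + 1) by ring, pow_mul]; norm_num
    rw [e1]
    linarith
  have hdvd : (2 : ℤ) ^ (2 * d + 1) ∣ x' - B * (-z) := by
    have e1 : x' - B * (-z) = 2 * 4 ^ d * w.norm - 2 ^ (2 * (n' + 3) - 1) * t * l.norm := by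
      rw [hx', hzT]; ring
    rw [e1]
    apply dvd_sub
    · rw [h4d]
      exact ⟨w.norm, by ring⟩
    · rw [mul_assoc]
      exact (pow_dvd_pow 2 (by omega)).mul_right _
  have hPk : Pk B D (2 * d) x' (-z) := ⟨hnorm, hdvd⟩
  obtain ⟨v', hv', hPv⟩ := orient B D hBo (2 * (n' + 3)) ⟨t, ht⟩ (n' + 1) (by omega) 1 v odd_one
    hvo (by rw [one_pow]; exact h)
  have hv'o : Odd v' := by
    rcases hv' with h | h
    · rw [h]; exact hvo
    · rw [h]; exact hvo.neg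
  obtain ⟨m, hm, -⟩ := Pk_structure B D (2 * (n' + 3)) hD7 hDo hBo ⟨t, ht⟩ (n' + 1) (by omega) 1 v'
    hPv odd_one hv'o
    (fun k hk1 hk2 x y hx hy hP => no_small D v (n' + 3) hn hn3 hD h k hk1 (by omega) x y hx hy
      hP.1) (2 * d) (by omega) x' (-z) hPk
  have hm2 : m < 2 := by
    by_contra hcon
    push Not at hcon
    have : (n' + 1) * 2 ≤ (n' + 1) * m := Nat.mul_le_mul_left _ hcon
    omega
  interval_cases m
  · omega
  · obtain ⟨c, hc⟩ := hn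
    omega

end Run7.h246
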