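import Mathlib
import Pool.Agent.Run7.h246.RelSmall
import Pool.Agent.Run7.h246.Dirich

set_option autoImplicit false

namespace Run7.h246

/-- `-D` is not a square in `Q(sqrt(-2))` -/
theorem no_zero (D : ℤ) (hD : D % 8 = 7) (hD0 : 0 < D) (X Y : Oz)
    (h : X ^ 2 + (D : Oz) * Y ^ 2 = 0) : Y = 0 := by
  have key : ∀ N : ℕ, ∀ a b : ℤ, a.natAbs ≤ N → D * a ^ 2 = 2 * b ^ 2 → a = 0 := by
    intro N
    induction N with
    | zero => intro a b ha _; omega
    | succ N ih =>
      intro a b ha hab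
      by_contra ha0
      have hae : Even a := by
        by_contra hao
        rw [Int.not_even_iff_odd] at hao
        have h1 : Odd (D * a ^ 2) := by
          apply Odd.mul _ hao.pow
          exact ⟨D / 2, by omega⟩
        rw [hab] at h1
        exact (Int.not_even_iff_odd.2 h1) (even_two_mul _)
      obtain ⟨a', rfl⟩ := hae
      have h2 : D * a' ^ 2 * 2 = b ^ 2 := by linarith
      have hbe : Even b := by
        by_contra hbo
        rw [Int.not_even_iff_odd] at hbo
        have h1 : Odd (b ^ 2) := hbo.pow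
        rw [← h2] at h1
        exact (Int.not_even_iff_odd.2 h1) (even_two.mul_left _)
      obtain ⟨b', rfl⟩ := hbe
      have h3 : D * a' ^ 2 = 2 * b' ^ 2 := by linarith
      have := ih a' b' (by omega) h3
      omega
  have hn := norm_identity D X Y
  rw [h, Zsqrtd.norm_zero] at hn
  have hzero : X.re * Y.re + 2 * X.im * Y.im = 0 := by
    by_contra hne
    have : 0 < (X.re * Y.re + 2 * X.im * Y.im) ^ 2 := sq_pos_of_ne_zero hne
    nlinarith [sq_nonneg (X.norm - D * Y.norm)]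
  have hre := congrArg Zsqrtd.re h
  have him := congrArg Zsqrtd.im h
  simp only [pow_two, Zsqrtd.re_add, Zsqrtd.im_add, Zsqrtd.re_mul, Zsqrtd.im_mul,
    Zsqrtd.re_intCast, Zsqrtd.im_intCast, Zsqrtd.re_zero, Zsqrtd.im_zero] at hre him
  set x1 := X.re
  set x2 := X.im
  set y1 := Y.re
  set y2 := Y.im
  have hxx : x1 * x2 = - D * (y1 * y2) := by
    have : 2 * (x1 * x2) = 2 * (- D * (y1 * y2)) := by linarith
    omega
  have e1 : y2 * (D * y1 ^ 2 - 2 * x2 ^ 2) = 0 := by
    linear_combination y1 * hxx - x2 * hzero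
  rcases mul_eq_zero.1 e1 with h2 | h2
  · rw [h2] at hzero hxx hre
    by_contra hY
    have hy1 : y1 ≠ 0 := by
      intro h0
      exact hY (Zsqrtd.ext h0 h2)
    have hx1 : x1 = 0 := by
      rw [mul_zero, add_zero] at hzero
      rcases mul_eq_zero.1 hzero with h | h
      · exact h
      · exact absurd h hy1
    rw [hx1] at hre
    exact hy1 (key y1.natAbs y1 x2 le_rfl (by linarith))
  · have hy1 : y1 = 0 := key y1.natAbs y1 x2 le_rfl (by linarith)
    have hx2 : x2 = 0 := by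
      rw [hy1] at h2
      have : x2 ^ 2 = 0 := by linarith
      exact pow_eq_zero_iff (by norm_num) |>.1 this
    rw [hy1, hx2] at hre
    have hx1e : Even x1 := by
      by_contra hxo
      rw [Int.not_even_iff_odd] at hxo
      have h1 : Odd (x1 * x1) := hxo.mul hxo
      have h3 : x1 * x1 = 2 * (D * (y2 * y2)) := by linarith
      rw [h3] at h1
      exact (Int.not_even_iff_odd.2 h1) (even_two_mul _)
    obtain ⟨x, hx⟩ := hx1e
    have hy2 : y2 = 0 := by
      apply key y2.natAbs y2 x le_rfl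
      rw [hx] at hre
      linarith
    exact Zsqrtd.ext hy1 hy2

/-- `4 ∣ x^2 - y^2` implies `2 ∣ x - y` in `Z[sqrt(-2)]` -/
theorem par_Oz (x y z : Oz) (h : x ^ 2 - y ^ 2 = 4 * z) : ∃ f : Oz, x - y = 2 * f := by
  obtain ⟨u, hu⟩ : ∃ u : Oz, u = x - y := ⟨_, rfl⟩
  have hx : x = y + u := by rw [hu]; ring
  have h1 : u ^ 2 + 2 * (u * y) = 4 * z := by rw [← h, hx]; ring
  have hre := congrArg Zsqrtd.re h1
  have him := congrArg Zsqrtd.im h1
  simp only [pow_two, Zsqrtd.re_add, Zsqrtd.im_add, Zsqrtd.re_mul, Zsqrtd.im_mul,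
    Zsqrtd.re_ofNat, Zsqrtd.im_ofNat] at hre him
  push_cast at hre him
  have h2 : Even u.re := by
    have : Even (u.re * u.re) := by
      refine ⟨u.im * u.im - (u.re * y.re + -2 * u.im * y.im) + 2 * z.re, ?_⟩
      linarith
    rcases Int.even_mul.1 this with h | h <;> exact h
  obtain ⟨a, ha⟩ := h2
  have h3 : Even u.im := by
    have : Even (u.im * u.im) := by
      refine ⟨a * a + a * y.re - u.im * y.im - z.re, ?_⟩
      rw [ha] at hre
      linarith
    rcases Int.even_mul.1 this with h | h <;> exact h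
  obtain ⟨b, hb⟩ := h3
  refine ⟨⟨a, b⟩, ?_⟩
  rw [← hu]
  ext
  · simp only [Zsqrtd.re_mul, Zsqrtd.re_ofNat, Zsqrtd.im_ofNat]
    push_cast
    linarith
  · simp only [Zsqrtd.im_mul, Zsqrtd.re_ofNat, Zsqrtd.im_ofNat]
    push_cast
    linarith

/-- `i sqrt D` -/
noncomputable def rtD (D : ℤ) : ℂ := (Real.sqrt (D : ℝ) : ℂ) * Complex.I

theorem rtD_sq (D : ℤ) (hD : 0 < D) : rtD D ^ 2 = -(D : ℂ) := by
  unfold rtD
  have h : ((Real.sqrt (D : ℝ) : ℝ) : ℂ) * ((Real.sqrt (D : ℝ) : ℝ) : ℂ) = (D : ℂ) := by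
    rw [← Complex.ofReal_mul, Real.mul_self_sqrt (by exact_mod_cast hD.le)]; norm_num
  calc _ = (((Real.sqrt (D : ℝ) : ℝ) : ℂ) * ((Real.sqrt (D : ℝ) : ℝ) : ℂ)) *
        (Complex.I * Complex.I) := by ring
    _ = _ := by rw [h, Complex.I_mul_I]; ring

/-- the root of the `i`-th form -/
noncomputable def om (D B : ℤ) (i : ℕ) : ℂ := (-(B : ℂ) + rtD D) / (2 * 2 ^ i)

theorem om_eq (D B : ℤ) (i : ℕ) (hD : 0 < D) (C : ℤ) (hC : B ^ 2 + D = 4 * 2 ^ i * C) :
    (2 : ℂ) ^ i * om D B i ^ 2 + B * om D B i + C = 0 := by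
  have h2 : (2 : ℂ) ^ i ≠ 0 := pow_ne_zero _ two_ne_zero
  have hC' : (B : ℂ) ^ 2 + D = 4 * 2 ^ i * C := by exact_mod_cast hC
  have hr := rtD_sq D hD
  unfold om
  field_simp
  linear_combination hr - hC'

theorem same_label (D v : ℤ) (n : ℕ) (hn : Odd n) (hn3 : 3 ≤ n) (hD : 0 < D)
    (h : 1 + D * v ^ 2 = 2 ^ n) (B : ℤ) (hBo : Odd B) (hB : (2 : ℤ) ^ (2 * n) ∣ B ^ 2 + D)
    (i d : ℕ) (hi : i + d + 3 ≤ n) (C C' : ℤ) (hC : B ^ 2 + D = 4 * 2 ^ i * C)
    (hC' : B ^ 2 + D = 4 * 2 ^ (i + d) * C')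
    (s t r u s' t' r' u' a b c a' b' c' m : Oz) (hdet : s * u - r * t = 1)
    (hdet' : s' * u' - r' * t' = 1)
    (ha : 2 ^ i * s ^ 2 + (B : Oz) * s * r + (C : Oz) * r ^ 2 = a)
    (hb : 2 * 2 ^ i * s * t + (B : Oz) * (s * u + r * t) + 2 * (C : Oz) * r * u = b)
    (hc : 2 ^ i * t ^ 2 + (B : Oz) * t * u + (C : Oz) * u ^ 2 = c)
    (ha' : 2 ^ (i + d) * s' ^ 2 + (B : Oz) * s' * r' + (C' : Oz) * r' ^ 2 = a')
    (hb' : 2 * 2 ^ (i + d) * s' * t' + (B : Oz) * (s' * u' + r' * t') + 2 * (C' : Oz) * r' * u'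
      = b')
    (hc' : 2 ^ (i + d) * t' ^ 2 + (B : Oz) * t' * u' + (C' : Oz) * u' ^ 2 = c')
    (haa : a' = a) (ha0 : a ≠ 0) (hbb : b' = b + 2 * a * m) :
    d = 0 ∧ (Complex.normSq (emb s - om D B i * emb r) =
      Complex.normSq (emb s' - om D B i * emb r') ∨
      ∃ x : ℤ, (2 : ℤ) ^ (n + 1) - 1 ≤ |x| ∧
        ((x : ℝ) ^ 2 * Complex.normSq (emb s' - om D B i * emb r') ≤
          Complex.normSq (emb s - om D B i * emb r) ∨
        (x : ℝ) ^ 2 * Complex.normSq (emb s - om D B i * emb r) ≤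
          Complex.normSq (emb s' - om D B i * emb r'))) := by
  obtain ⟨hvo, hDo, hD8, -⟩ := setup D v n hn3 h
  -- discriminants
  have hCz : (B : Oz) ^ 2 + (D : Oz) = 4 * 2 ^ i * (C : Oz) := by exact_mod_cast congrArg (Int.cast : ℤ → Oz) hC
  have hCz' : (B : Oz) ^ 2 + (D : Oz) = 4 * 2 ^ (i + d) * (C' : Oz) := by
    exact_mod_cast congrArg (Int.cast : ℤ → Oz) hC'
  have hdisc : b ^ 2 + (D : Oz) = 4 * a * c := by
    rw [← ha, ← hb, ← hc]
    linear_combination (s * u - r * t) ^ 2 * hCz - (D : Oz) * (s * u - r * t + 1) * hdet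
  have hdisc' : b' ^ 2 + (D : Oz) = 4 * a' * c' := by
    rw [← ha', ← hb', ← hc']
    linear_combination (s' * u' - r' * t') ^ 2 * hCz' - (D : Oz) * (s' * u' - r' * t' + 1) * hdet'
  -- shift the second basis
  have hdet'' : s' * (u' - m * r') - r' * (t' - m * s') = 1 := by linear_combination hdet'
  have hb'' : 2 * 2 ^ (i + d) * s' * (t' - m * s') + (B : Oz) * (s' * (u' - m * r') +
      r' * (t' - m * s')) + 2 * (C' : Oz) * r' * (u' - m * r') = b := by
    linear_combination hb' - 2 * m * ha' + hbb - 2 * m * haa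
  have hc'' : 2 ^ (i + d) * (t' - m * s') ^ 2 + (B : Oz) * (t' - m * s') * (u' - m * r') +
      (C' : Oz) * (u' - m * r') ^ 2 = c := by
    have h4a : (4 : Oz) * a ≠ 0 := by
      apply mul_ne_zero _ ha0
      intro h0
      have := congrArg Zsqrtd.re h0
      simp at this
    apply mul_left_cancel₀ h4a
    rw [← hdisc, ← haa, ← ha', ← hb'']
    linear_combination (-(s' * (u' - m * r') - r' * (t' - m * s')) ^ 2) * hCz' +
      (D : Oz) * (s' * (u' - m * r') - r' * (t' - m * s') + 1) * hdet''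
  obtain ⟨p, q, v0, w, f0, f1, f2, f3, f4, f5⟩ := compose_ring (2 ^ i : Oz) (B : Oz) (C : Oz)
    (2 ^ (i + d) : Oz) (B : Oz) (C' : Oz) s t r u s' (t' - m * s') r' (u' - m * r') hdet hdet''
    (by rw [ha, ha', haa]) (by rw [hb, hb'']) (by rw [hc, hc''])
  have h20 : (2 : Oz) ≠ 0 := by
    intro h0
    have := congrArg Zsqrtd.re h0
    simp at this
  have h2i : (2 : Oz) ^ i ≠ 0 := pow_ne_zero _ h20
  have hlin : (B : Oz) * v0 = 2 ^ (i + d) * w - 2 ^ i * p := by
    apply mul_left_cancel₀ h20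
    linear_combination 2 * w * f1 - v0 * f2 - (2 * 2 ^ i * p + (B : Oz) * v0) * f0
  have hdiv : (2 : Oz) ^ i ∣ v0 := by
    have hcp : IsCoprime ((2 : Oz) ^ i) (B : Oz) := by
      apply IsCoprime.pow_left
      obtain ⟨z, hz⟩ := hBo
      refine ⟨-(z : Oz), 1, ?_⟩
      rw [hz]; push_cast; ring
    apply hcp.dvd_of_dvd_mul_left
    refine ⟨2 ^ d * w - p, ?_⟩
    rw [hlin, pow_add]; ring
  obtain ⟨l, hl⟩ := hdiv
  have hlin2 : (B : Oz) * l = 2 ^ d * w - p := by
    apply mul_left_cancel₀ h2i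
    rw [hl, pow_add] at hlin
    linear_combination hlin
  have hXY : (2 * p + (B : Oz) * l) ^ 2 + (D : Oz) * l ^ 2 = 2 ^ (d + 2) := by
    have h4i : (2 : Oz) ^ i * 2 ^ i ≠ 0 := mul_ne_zero h2i h2i
    apply mul_left_cancel₀ h4i
    rw [hl, pow_add] at f1
    have e2 : (2 : Oz) ^ (d + 2) = 4 * 2 ^ d := by ring
    rw [e2]
    linear_combination (4 * 2 ^ i) * f1 + (2 ^ i * 2 ^ i * l ^ 2) * hCz
  have hd0 : d = 0 := by
    by_contra hd0
    exact no_small_rel D v n hn hn3 hD h B hBo hB d (by omega) (by omega) p w l hlin2 hXY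
  refine ⟨hd0, ?_⟩
  subst hd0
  have hCC : C' = C := by
    rw [add_zero] at hC'
    have h4 : (4 : ℤ) * 2 ^ i ≠ 0 := by positivity
    exact mul_left_cancel₀ h4 (hC'.symm.trans hC)
  subst hCC
  rw [pow_zero, one_mul] at hlin2
  simp only [add_zero] at f1 f2 f3
  -- q = - l C
  have hq : q = - l * (C' : Oz) := by
    have h22 : (2 : Oz) * 2 ^ i ≠ 0 := mul_ne_zero h20 h2i
    apply mul_left_cancel₀ h22
    have e : v0 = 2 ^ i * l := hl
    linear_combination w * f2 - 2 * v0 * f3 - (2 * 2 ^ i * q + (B : Oz) * w) * f0 -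
      2 * (C' : Oz) * e
  -- the relation between the two vectors
  have hom := om_eq D B i hD C' hC
  set W := om D B i with hW
  have hrel : emb s - W * emb r = (emb p - W * (2 ^ i * emb l)) * (emb s' - W * emb r') := by
    have e1 : emb s = emb p * emb s' + emb q * emb r' := by rw [f4]; simp
    have e2 : emb r = emb v0 * emb s' + emb w * emb r' := by rw [f5]; simp
    have e3 : emb v0 = 2 ^ i * emb l := by rw [hl, map_mul, map_pow, map_ofNat]
    have e4 : emb q = - emb l * (C' : ℂ) := by rw [hq]; simp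
    have e5 : (B : ℂ) * emb l = emb w - emb p := by
      have := congrArg emb hlin2
      simpa using this
    rw [e1, e2, e3, e4]
    linear_combination (-emb l * emb r') * hom + (emb r' * W) * e5
  by_cases hl0 : l = 0
  · left
    rw [hl0] at hrel hl hlin2
    rw [mul_zero] at hl hlin2
    have hpw : p * w = 1 := by rw [hl] at f0; linear_combination f0
    have hpn : p.norm = 1 := by
      have := congrArg Zsqrtd.norm hpw
      rw [Zsqrtd.norm_mul, Zsqrtd.norm_one] at this
      have h1 := nm_nonneg p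
      have h2 := nm_nonneg w
      exact Int.eq_one_of_mul_eq_one_right h1 this
    have hn : Complex.normSq (emb p) = 1 := by rw [normSq_emb, hpn]; norm_num
    rw [hrel, map_zero, mul_zero, mul_zero, sub_zero, map_mul, hn, one_mul]
  · right
    obtain ⟨b0, hb0⟩ := hBo
    obtain ⟨x, y, hy, hxy, hX, hY⟩ := rel_unit D hD8 hD (2 * p + (B : Oz) * l) l (p + (b0 : Oz) * l)
      (by rw [hb0]; push_cast; ring) (by rw [hXY]; norm_num) hl0
    refine ⟨x, pell_large D v n hn hn3 hD h x y hy hxy, ?_⟩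
    have heta : emb p - W * (2 ^ i * emb l) = ((x + y * (Real.sqrt 2 * Real.sqrt D) : ℝ) : ℂ) := by
      have e1 : 2 * emb p + (B : ℂ) * emb l = 2 * x := by
        have := congrArg emb hX
        rw [emb_def ⟨2 * x, 0⟩, map_add, map_mul, map_mul, map_ofNat] at this
        simpa using this
      have e2 : emb l = 2 * y * rt2 := by
        have := congrArg emb hY
        rw [emb_def ⟨0, 2 * y⟩] at this
        simpa using this
      have e3 : W * (2 ^ i * emb l) = (-(B : ℂ) + rtD D) * emb l / 2 := by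
        rw [hW]; unfold om
        have h2 : (2 : ℂ) ^ i ≠ 0 := pow_ne_zero _ two_ne_zero
        field_simp
      have e4 : rtD D * rt2 = -((Real.sqrt 2 * Real.sqrt D : ℝ) : ℂ) := by
        unfold rtD rt2
        push_cast
        linear_combination (Real.sqrt (D : ℝ) * Real.sqrt 2 : ℂ) * Complex.I_mul_I
      rw [e3]
      push_cast at e4 ⊢
      linear_combination (1 / 2) * e1 - (1 / 2) * rtD D * e2 - y * e4
    have hns : Complex.normSq (emb s - W * emb r) =
        (x + y * (Real.sqrt 2 * Real.sqrt D)) ^ 2 * Complex.normSq (emb s' - W * emb r') := by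
      rw [hrel, map_mul, heta, Complex.normSq_ofReal]; ring
    set S := Real.sqrt 2 * Real.sqrt D with hS
    have hS0 : 0 ≤ S := by positivity
    have hS2 : S ^ 2 = 2 * D := by
      rw [hS, mul_pow, Real.sq_sqrt (by norm_num), Real.sq_sqrt (by exact_mod_cast hD.le)]
    have hpell : (x : ℝ) ^ 2 - 2 * D * (y : ℝ) ^ 2 = 1 := by exact_mod_cast hxy
    have hprod : ((x : ℝ) + y * S) * (x - y * S) = 1 := by
      linear_combination hpell - (y : ℝ) ^ 2 * hS2
    have hN0 := Complex.normSq_nonneg (emb s' - W * emb r')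
    rcases le_total 0 ((x : ℝ) * y) with hxy0 | hxy0
    · left
      rw [hns]
      apply mul_le_mul_of_nonneg_right _ hN0
      nlinarith [mul_nonneg hxy0 hS0, sq_nonneg ((y : ℝ) * S)]
    · right
      have e5 : Complex.normSq (emb s' - W * emb r') =
          ((x : ℝ) - y * S) ^ 2 * Complex.normSq (emb s - W * emb r) := by
        rw [hns]
        have : ((x : ℝ) - y * S) ^ 2 * (((x : ℝ) + y * S) ^ 2 *
            Complex.normSq (emb s' - W * emb r')) =
            (((x : ℝ) + y * S) * (x - y * S)) ^ 2 * Complex.normSq (emb s' - W * emb r') := by ring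
        rw [this, hprod]; ring
      rw [e5]
      apply mul_le_mul_of_nonneg_right _ (Complex.normSq_nonneg _)
      nlinarith [mul_nonneg (neg_nonneg.2 hxy0) hS0, sq_nonneg ((y : ℝ) * S)]

end Run7.h246
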