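import Mathlib
import Pool.Agent.Run7.h246.Label

set_option autoImplicit false

namespace Run7.h246

theorem normSq_add_le (z w : ℂ) :
    Complex.normSq (z + w) ≤ 2 * Complex.normSq z + 2 * Complex.normSq w := by
  rw [Complex.normSq_apply, Complex.normSq_apply, Complex.normSq_apply, Complex.add_re,
    Complex.add_im]
  nlinarith [sq_nonneg (z.re - w.re), sq_nonneg (z.im - w.im)]

theorem exists_vec (D B : ℤ) (i k : ℕ) (hD : D % 8 = 7) (hD0 : 0 < D) (hik : i ≤ 2 * k) (C : ℤ)
    (hC : B ^ 2 + D = 4 * 2 ^ i * C) :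
    ∃ s t r u a b c : Oz, s * u - r * t = 1 ∧
      2 ^ i * s ^ 2 + (B : Oz) * s * r + (C : Oz) * r ^ 2 = a ∧
      2 * 2 ^ i * s * t + (B : Oz) * (s * u + r * t) + 2 * (C : Oz) * r * u = b ∧
      2 ^ i * t ^ 2 + (B : Oz) * t * u + (C : Oz) * u ^ 2 = c ∧ a ≠ 0 ∧
      Complex.normSq (emb s - om D B i * emb r) * 4 ^ k ≤ 3 ∧
      (a.norm : ℝ) ≤ 6 * (1 + D) * (Complex.normSq (emb s - om D B i * emb r) * 4 ^ k) := by
  have hM : 1 ≤ 2 ^ k := Nat.one_le_two_pow
  obtain ⟨x, y, hy, hyn, hxy⟩ := dirichlet_Oz (om D B i) (2 ^ k) hM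
  obtain ⟨g, s, r, u, t', hg, hx', hy', hbez⟩ := Oz_bezout x y hy
  have hr0 : r ≠ 0 := by rintro rfl; exact hy (by rw [hy', mul_zero])
  have h4k : ((2 : ℝ) ^ k) ^ 2 = 4 ^ k := by rw [← pow_mul, mul_comm, pow_mul]; norm_num
  have hgn : (1 : ℝ) ≤ (g.norm : ℝ) := by exact_mod_cast nm_pos hg
  have hxi : Complex.normSq (emb s - om D B i * emb r) * 4 ^ k ≤ 3 := by
    have e1 : emb x - om D B i * emb y = emb g * (emb s - om D B i * emb r) := by
      rw [hx', hy', map_mul, map_mul]; ring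
    rw [e1, map_mul, normSq_emb, le_div_iff₀ (by positivity)] at hxy
    push_cast at hxy
    rw [h4k] at hxy
    have h0 : 0 ≤ Complex.normSq (emb s - om D B i * emb r) * 4 ^ k :=
      mul_nonneg (Complex.normSq_nonneg _) (by positivity)
    nlinarith
  have hrn : (r.norm : ℝ) ≤ 3 * 4 ^ k := by
    have h1 : r.norm ≤ y.norm := by
      rw [hy', Zsqrtd.norm_mul]
      nlinarith [nm_pos hg, nm_nonneg r]
    have h2 : (r.norm : ℝ) ≤ 3 * ((2 ^ k : ℕ) : ℝ) ^ 2 := by exact_mod_cast h1.trans hyn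
    push_cast at h2
    rwa [h4k] at h2
  refine ⟨s, -t', r, u, _, _, _, by linear_combination hbez, rfl, rfl, rfl, ?_, hxi, ?_⟩
  · intro h0
    apply hr0
    have hCz : (B : Oz) ^ 2 + (D : Oz) = 4 * 2 ^ i * (C : Oz) := by
      exact_mod_cast congrArg (Int.cast : ℤ → Oz) hC
    apply no_zero D hD hD0 (2 * 2 ^ i * s + (B : Oz) * r) r
    linear_combination (4 * 2 ^ i) * h0 + r ^ 2 * hCz
  · set xi := emb s - om D B i * emb r with hxidef
    set xi' := xi + (rtD D / 2 ^ i) * emb r with hxi'def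
    have h2i : (2 : ℂ) ^ i ≠ 0 := pow_ne_zero _ two_ne_zero
    have hom := om_eq D B i hD0 C hC
    have hCc : (B : ℂ) ^ 2 + D = 4 * 2 ^ i * C := by exact_mod_cast hC
    -- emb a = 2^i xi xi'
    have hprod : emb (2 ^ i * s ^ 2 + (B : Oz) * s * r + (C : Oz) * r ^ 2) = 2 ^ i * (xi * xi') := by
      have e1 : (2 : ℂ) ^ i * xi' = 2 ^ i * emb s + (B : ℂ) * emb r + 2 ^ i * om D B i * emb r := by
        rw [hxi'def, hxidef]
        have : (2 : ℂ) ^ i * om D B i = (-(B : ℂ) + rtD D) / 2 := by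
          unfold om; field_simp
        have e3 : (2 : ℂ) ^ i * (rtD D / 2 ^ i) = rtD D := by field_simp
        linear_combination (-2 * emb r) * this + emb r * e3
      have e2 : (2 : ℂ) ^ i * (xi * xi') = xi * (2 ^ i * xi') := by ring
      rw [e2, e1, hxidef]
      rw [map_add, map_add, map_mul, map_mul, map_mul, map_mul, map_pow, map_pow, map_pow,
        map_ofNat, map_intCast, map_intCast]
      linear_combination (emb r) ^ 2 * hom
    have hN : ((2 ^ i * s ^ 2 + (B : Oz) * s * r + (C : Oz) * r ^ 2 : Oz).norm : ℝ) =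
        4 ^ i * (Complex.normSq xi * Complex.normSq xi') := by
      rw [← normSq_emb, hprod, map_mul, map_mul, map_pow]
      congr 2
      simp [Complex.normSq_apply]; norm_num
    rw [hN]
    have hxi'le : Complex.normSq xi' * 4 ^ i ≤ 6 * (1 + D) * 4 ^ k := by
      have h1 := normSq_add_le xi ((rtD D / 2 ^ i) * emb r)
      rw [← hxi'def] at h1
      have h2 : Complex.normSq ((rtD D / 2 ^ i) * emb r) * 4 ^ i = D * r.norm := by
        rw [map_mul, normSq_emb, map_div₀, map_pow]
        have e1 : Complex.normSq (rtD D) = D := by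
          unfold rtD
          rw [map_mul, Complex.normSq_ofReal, Complex.normSq_I, mul_one,
            Real.mul_self_sqrt (by exact_mod_cast hD0.le)]
        have e2 : Complex.normSq (2 : ℂ) = 4 := by
          simp [Complex.normSq_apply]; norm_num
        rw [e1, e2]
        field_simp
      have h3 : Complex.normSq xi * 4 ^ i ≤ 3 * 4 ^ k := by
        have h4 : Complex.normSq xi * 4 ^ k ≤ 3 := hxi
        have h5 : (4 : ℝ) ^ i ≤ 4 ^ k * 4 ^ k := by
          rw [← pow_add]
          exact pow_le_pow_right₀ (by norm_num) (by omega)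
        have h6 := Complex.normSq_nonneg xi
        calc Complex.normSq xi * 4 ^ i ≤ Complex.normSq xi * (4 ^ k * 4 ^ k) :=
              mul_le_mul_of_nonneg_left h5 h6
          _ = (Complex.normSq xi * 4 ^ k) * 4 ^ k := by ring
          _ ≤ 3 * 4 ^ k := mul_le_mul_of_nonneg_right h4 (by positivity)
      have hDr : (0 : ℝ) ≤ D := by exact_mod_cast hD0.le
      calc Complex.normSq xi' * 4 ^ i ≤
            (2 * Complex.normSq xi + 2 * Complex.normSq ((rtD D / 2 ^ i) * emb r)) * 4 ^ i :=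
            mul_le_mul_of_nonneg_right h1 (by positivity)
        _ = 2 * (Complex.normSq xi * 4 ^ i) +
            2 * (Complex.normSq ((rtD D / 2 ^ i) * emb r) * 4 ^ i) := by ring
        _ ≤ 2 * (3 * 4 ^ k) + 2 * (D * (3 * 4 ^ k)) := by
            rw [h2]
            have := mul_le_mul_of_nonneg_left hrn hDr
            linarith
        _ = _ := by ring
    have h6 := Complex.normSq_nonneg xi
    calc (4 : ℝ) ^ i * (Complex.normSq xi * Complex.normSq xi') =
        Complex.normSq xi * (Complex.normSq xi' * 4 ^ i) := by ring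
      _ ≤ Complex.normSq xi * (6 * (1 + D) * 4 ^ k) := mul_le_mul_of_nonneg_left hxi'le h6
      _ = _ := by ring

end Run7.h246
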