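import Mathlib
import Pool.Agent.Run7.h246.Vec
import Pool.Agent.Run7.h246.OrdE

set_option autoImplicit false

namespace Run7.h246

open Finset

theorem GG_exists (a f : Oz) (ha : a ≠ 0) : ∃ z : Oz × Oz, z.1 * z.2 = a ∧
    ∃ f' : Oz, f = z.1 * f' ∧ IsCoprime f' z.2 := by
  obtain ⟨g, f', a', u, t, -, hf, ha', hb⟩ := Oz_bezout f a ha
  exact ⟨(g, a'), ha'.symm, f', hf, u, t, hb⟩

open Classical in
/-- greatest common divisor of `f` and `a`, and the cofactor of `a` -/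
noncomputable def GG (a f : Oz) : Oz × Oz :=
  if ha : a ≠ 0 then (GG_exists a f ha).choose else 0

theorem GG_spec (a f : Oz) (ha : a ≠ 0) : (GG a f).1 * (GG a f).2 = a ∧
    ∃ f' : Oz, f = (GG a f).1 * f' ∧ IsCoprime f' (GG a f).2 := by
  unfold GG
  rw [dif_pos ha]
  exact (GG_exists a f ha).choose_spec

theorem label_inj (D : ℕ) (hD : Squarefree D) (hDo : Odd D) (a b1 b2 b3 f2 f3 c1 c2 c3 : Oz)
    (ha : a ≠ 0) (h1 : b1 ^ 2 + (D : Oz) = 4 * a * c1) (h2 : b2 ^ 2 + (D : Oz) = 4 * a * c2)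
    (h3 : b3 ^ 2 + (D : Oz) = 4 * a * c3) (hf2 : b1 - b2 = 2 * f2) (hf3 : b1 - b3 = 2 * f3)
    (hG : GG a f2 = GG a f3) : ∃ m : Oz, b3 = b2 + 2 * a * m := by
  obtain ⟨e1, f2', e2, e3⟩ := GG_spec a f2 ha
  obtain ⟨e4, f3', e5, e6⟩ := GG_spec a f3 ha
  rw [← hG] at e4 e5 e6
  set g := (GG a f2).1
  set a1 := (GG a f2).2
  have h40 : (4 : Oz) ≠ 0 := by
    intro h0
    have := congrArg Zsqrtd.re h0
    simp at this
  have hg0 : g ≠ 0 := by rintro h0; rw [h0, zero_mul] at e1; exact ha e1.symm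
  have ha10 : a1 ≠ 0 := by rintro h0; rw [h0, mul_zero] at e1; exact ha e1.symm
  have step : ∀ b f f' c : Oz, b ^ 2 + (D : Oz) = 4 * a * c → b1 - b = 2 * f → f = g * f' →
      IsCoprime f' a1 → a1 ∣ b1 - f := by
    intro b f f' c hb hf hff hcp
    have hprod : f * (b1 - f) = a * (c1 - c) := by
      apply mul_left_cancel₀ h40
      have hbb : b = b1 - 2 * f := by linear_combination -hf
      rw [hbb] at hb
      linear_combination h1 - hb
    apply hcp.symm.dvd_of_dvd_mul_left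
    refine ⟨c1 - c, ?_⟩
    apply mul_left_cancel₀ hg0
    linear_combination hprod - (b1 - f) * hff + (c1 - c) * (-e1)
  have k2 := step b2 f2 f2' c2 h2 hf2 e2 e3
  have k3 := step b3 f3 f3' c3 h3 hf3 e5 e6
  have hcop : IsCoprime g a1 := by
    obtain ⟨e, g2, a2, u, t, he0, hge, hae, hb⟩ := Oz_bezout g a1 ha10
    have d1 : e ∣ b1 := by
      have p1 : e ∣ f2 := by rw [e2, hge]; exact (Dvd.intro _ rfl : e ∣ e * g2).mul_right _
      have p2 : e ∣ b1 - f2 := (show e ∣ a1 by rw [hae]; exact Dvd.intro _ rfl).trans k2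
      have := dvd_add p1 p2
      simpa using this
    obtain ⟨be, hbe⟩ := d1
    have hunit := Oz_squarefree D hD hDo e (4 * g2 * a2 * c1 - be ^ 2) (by
      have : (D : Oz) = 4 * a * c1 - b1 ^ 2 := by linear_combination h1
      rw [this, hbe, ← e1, hge, hae]; ring)
    obtain ⟨e', he'⟩ := hunit
    refine ⟨u * ((e'⁻¹ : Ozˣ) : Oz), t * ((e'⁻¹ : Ozˣ) : Oz), ?_⟩
    have : ((e'⁻¹ : Ozˣ) : Oz) * e = 1 := by rw [← he']; exact Units.inv_mul e'
    rw [hge, hae]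
    linear_combination (u * g2 + t * a2) * this + hb
  have q1 : g ∣ f2 - f3 := by rw [e2, e5]; exact ⟨f2' - f3', by ring⟩
  have q2 : a1 ∣ f2 - f3 := by
    have := dvd_sub k3 k2
    have h6 : b1 - f3 - (b1 - f2) = f2 - f3 := by ring
    rwa [h6] at this
  have q3 := hcop.mul_dvd q1 q2
  rw [e1] at q3
  obtain ⟨m, hm⟩ := q3
  exact ⟨m, by linear_combination 2 * hm + hf2 - hf3⟩

/-- sup norm on `Z[sqrt(-2)]` -/
def mx (g : Oz) : ℕ := max g.re.natAbs g.im.natAbs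

theorem mx_pos (g : Oz) (hg : g ≠ 0) : 1 ≤ mx g := by
  unfold mx
  by_contra hcon
  push Not at hcon
  have h1 : g.re.natAbs = 0 := by omega
  have h2 : g.im.natAbs = 0 := by omega
  exact hg (Zsqrtd.ext (Int.natAbs_eq_zero.1 h1) (Int.natAbs_eq_zero.1 h2))

theorem mx_sq_le (g : Oz) : ((mx g : ℕ) : ℤ) ^ 2 ≤ g.norm := by
  rw [nm_def]
  unfold mx
  have h1 : ((g.re.natAbs : ℕ) : ℤ) ^ 2 = g.re ^ 2 := Int.natAbs_sq g.re
  have h2 : ((g.im.natAbs : ℕ) : ℤ) ^ 2 = g.im ^ 2 := Int.natAbs_sq g.im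
  rcases le_total g.re.natAbs g.im.natAbs with h | h
  · rw [max_eq_right h, h2]; nlinarith [sq_nonneg g.re, sq_nonneg g.im]
  · rw [max_eq_left h, h1]; nlinarith [sq_nonneg g.im]

theorem card_pairs (al be : ℕ) (hal : al ≠ 0) (hbe : be ≠ 0) (S : Finset (Oz × Oz))
    (hS : ∀ z ∈ S, mx z.1 = al ∧ mx z.2 = be) : S.card ≤ (8 * al) * (8 * be) := by
  classical
  have : S.card ≤ ((box al : Finset (ℤ × ℤ)) ×ˢ (box be : Finset (ℤ × ℤ))).card := by
    apply Finset.card_le_card_of_injOn (fun z => ((z.1.re, z.1.im), (z.2.re, z.2.im)))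
    · intro z hz
      have := hS z hz
      simp only [Finset.coe_product, Set.mem_prod, Finset.mem_coe, Int.mem_box]
      exact this
    · intro z _ w _ h
      simp only [Prod.mk.injEq] at h
      exact Prod.ext (Zsqrtd.ext h.1.1 h.1.2) (Zsqrtd.ext h.2.1 h.2.2)
  rw [Finset.card_product, Int.card_box hal, Int.card_box hbe] at this
  exact this

theorem card_hyper (A : ℕ) :
    (((Ioc 0 A) ×ˢ (Ioc 0 A)).filter (fun z : ℕ × ℕ => z.1 * z.2 ≤ A)).card ≤
      ∑ d ∈ Ioc 0 A, A / d := by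
  classical
  rw [Finset.card_filter, Finset.sum_product]
  apply Finset.sum_le_sum
  intro d hd
  rw [mem_Ioc] at hd
  rw [← Finset.card_filter]
  have : (Ioc 0 A).filter (fun e => d * e ≤ A) ⊆ Ioc 0 (A / d) := by
    intro e he
    rw [mem_filter, mem_Ioc] at he
    rw [mem_Ioc]
    exact ⟨he.1.1, (Nat.le_div_iff_mul_le hd.1).2 (by rw [mul_comm]; exact he.2)⟩
  refine (Finset.card_le_card this).trans ?_
  simp

theorem sq_le_four_pow (F : ℕ) (hF : 1 ≤ F) : F ^ 2 ≤ 4 ^ (F - 1) := by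
  have h1 : F ≤ 2 ^ (F - 1) := by
    have := Nat.lt_two_pow_self (n := F - 1)
    omega
  calc F ^ 2 ≤ (2 ^ (F - 1)) ^ 2 := Nat.pow_le_pow_left h1 2
    _ = 4 ^ (F - 1) := by rw [← pow_mul, mul_comm, pow_mul]; norm_num

/-- abstract counting -/
theorem abstract_count (I : Finset (ℕ × ℕ)) (Psi : ℕ × ℕ → Oz × Oz) (A : ℕ)
    (hne : ∀ x ∈ I, (Psi x).1 ≠ 0 ∧ (Psi x).2 ≠ 0)
    (hfib : ∀ z : Oz × Oz, ∀ S : Finset (ℕ × ℕ), S ⊆ I → (∀ x ∈ S, Psi x = z) → S.Nonempty →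
      S.card * (mx z.1 * mx z.2) ≤ A) :
    I.card ≤ 64 * A * ∑ d ∈ Ioc 0 A, A / d := by
  classical
  have hmaps : ∀ x ∈ I, (mx (Psi x).1, mx (Psi x).2) ∈
      ((Ioc 0 A) ×ˢ (Ioc 0 A)).filter (fun z : ℕ × ℕ => z.1 * z.2 ≤ A) := by
    intro x hx
    obtain ⟨h1, h2⟩ := hne x hx
    have h3 := mx_pos _ h1
    have h4 := mx_pos _ h2
    have h5 := hfib (Psi x) {x} (by simpa using hx) (by simp) (by simp)
    rw [Finset.card_singleton, one_mul] at h5
    rw [mem_filter, mem_product, mem_Ioc, mem_Ioc]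
    refine ⟨⟨⟨by omega, ?_⟩, ⟨by omega, ?_⟩⟩, h5⟩
    · exact (Nat.le_mul_of_pos_right _ (by omega)).trans h5
    · exact (Nat.le_mul_of_pos_left _ (by omega)).trans h5
  rw [Finset.card_eq_sum_card_fiberwise hmaps]
  have hterm : ∀ z ∈ ((Ioc 0 A) ×ˢ (Ioc 0 A)).filter (fun z : ℕ × ℕ => z.1 * z.2 ≤ A),
      (I.filter (fun x => (mx (Psi x).1, mx (Psi x).2) = z)).card ≤ 64 * A := by
    intro z hz
    rw [mem_filter, mem_product, mem_Ioc, mem_Ioc] at hz
    obtain ⟨⟨⟨hz1, _⟩, ⟨hz2, _⟩⟩, hz3⟩ := hz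
    set T := I.filter (fun x => (mx (Psi x).1, mx (Psi x).2) = z) with hT
    have hzpos : 0 < z.1 * z.2 := Nat.mul_pos hz1 hz2
    have h1 : T.card ≤ (A / (z.1 * z.2)) * (T.image Psi).card := by
      apply Finset.card_le_mul_card_image
      intro w hw
      rw [Nat.le_div_iff_mul_le hzpos]
      rcases (T.filter (fun x => Psi x = w)).eq_empty_or_nonempty with h0 | h0
      · rw [h0]; simp
      · have h2 := hfib w (T.filter (fun x => Psi x = w))
          (fun x hx => (mem_filter.1 (mem_filter.1 hx).1).1)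
          (fun x hx => (mem_filter.1 hx).2) h0
        obtain ⟨x, hx⟩ := h0
        have h3 := (mem_filter.1 (mem_filter.1 hx).1).2
        have h4 := (mem_filter.1 hx).2
        rw [h4] at h3
        rw [← h3]
        exact h2
    have h2 : (T.image Psi).card ≤ (8 * z.1) * (8 * z.2) := by
      apply card_pairs _ _ (by omega) (by omega)
      intro w hw
      rw [mem_image] at hw
      obtain ⟨x, hx, rfl⟩ := hw
      have h3 := (mem_filter.1 hx).2
      rw [← h3]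
      exact ⟨rfl, rfl⟩
    calc T.card ≤ (A / (z.1 * z.2)) * ((8 * z.1) * (8 * z.2)) :=
          h1.trans (Nat.mul_le_mul_left _ h2)
      _ = 64 * ((A / (z.1 * z.2)) * (z.1 * z.2)) := by ring
      _ ≤ 64 * A := Nat.mul_le_mul_left _ (Nat.div_mul_le_self _ _)
  refine (Finset.sum_le_sum hterm).trans ?_
  rw [Finset.sum_const, smul_eq_mul, mul_comm]
  exact Nat.mul_le_mul_left _ (card_hyper A)

end Run7.h246
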