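import Mathlib
import Pool.Agent.Run7.h246.Count

set_option autoImplicit false

namespace Run7.h246

open Finset

open Classical in
/-- a reference square root of `-D` modulo `4 a` -/
noncomputable def bref (D : ℕ) (a : Oz) : Oz :=
  if h : ∃ b : Oz, ∃ c : Oz, b ^ 2 + (D : Oz) = 4 * a * c then h.choose else 0

theorem bref_spec (D : ℕ) (a b c : Oz) (h : b ^ 2 + (D : Oz) = 4 * a * c) :
    ∃ c1 : Oz, (bref D a) ^ 2 + (D : Oz) = 4 * a * c1 := by
  unfold bref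
  have hex : ∃ b : Oz, ∃ c : Oz, b ^ 2 + (D : Oz) = 4 * a * c := ⟨b, c, h⟩
  rw [dif_pos hex]
  exact hex.choose_spec

theorem main_bound (D : ℕ) (v : ℤ) (n : ℕ) (hn : Odd n) (hn3 : 3 ≤ n) (hsq : Squarefree D)
    (h : 1 + (D : ℤ) * v ^ 2 = 2 ^ n) (hsmall : 3 * (D + 1) ≤ 2 ^ n) :
    (n - 2) * ((n + 1) / 2) ≤ 64 * Nat.sqrt (18 * (D + 1)) *
      ∑ d ∈ Ioc 0 (Nat.sqrt (18 * (D + 1))), Nat.sqrt (18 * (D + 1)) / d := by
  classical
  obtain ⟨hvo, hDo, hD8, B, hBo, hB⟩ := setup (D : ℤ) v n hn3 h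
  have hDo' : Odd D := by exact_mod_cast hDo
  have hD0 : 0 < (D : ℤ) := by omega
  obtain ⟨n', rfl⟩ : ∃ n', n = n' + 3 := ⟨n - 3, by omega⟩
  set J := (n' + 3 + 1) / 2 with hJ
  have hform : ∀ i : ℕ, i < n' + 1 → ∃ C : ℤ, B ^ 2 + (D : ℤ) = 4 * 2 ^ i * C := by
    intro i hi
    obtain ⟨t, ht⟩ := hB
    refine ⟨2 ^ (2 * (n' + 3) - 2 - i) * t, ?_⟩
    rw [ht]
    have : (2 : ℤ) ^ (2 * (n' + 3)) = 4 * (2 ^ i * 2 ^ (2 * (n' + 3) - 2 - i)) := by
      rw [← pow_add, show (4 : ℤ) = 2 ^ 2 by norm_num, ← pow_add]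
      congr 1
      omega
    rw [this]; ring
  choose! C hC using hform
  set I : Finset (ℕ × ℕ) := (range (n' + 1)) ×ˢ (range J) with hI
  have hvec : ∀ x : ℕ × ℕ, x ∈ I → _ := fun x hx =>
    exists_vec (D : ℤ) B x.1 ((x.1 + 1) / 2 + x.2) hD8 hD0 (by omega) (C x.1)
      (hC x.1 (by rw [hI, mem_product, mem_range] at hx; exact hx.1))
  choose! s t r u a b c h1 h2 h3 h4 h5 h6 h7 using hvec
  have hC' : ∀ x ∈ I, B ^ 2 + (D : ℤ) = 4 * 2 ^ x.1 * C x.1 := fun x hx =>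
    hC x.1 (by rw [hI, mem_product, mem_range] at hx; exact hx.1)
  have hdisc : ∀ x ∈ I, (b x) ^ 2 + (D : Oz) = 4 * a x * c x := by
    intro x hx
    have hCz : (B : Oz) ^ 2 + (D : Oz) = 4 * 2 ^ x.1 * (C x.1 : Oz) := by
      exact_mod_cast congrArg (Int.cast : ℤ → Oz) (hC' x hx)
    have e1 := h1 x hx
    rw [← h2 x hx, ← h3 x hx, ← h4 x hx]
    linear_combination (s x * u x - r x * t x) ^ 2 * hCz -
      (D : Oz) * (s x * u x - r x * t x + 1) * e1
  have hbr : ∀ x ∈ I, ∃ c1 : Oz, (bref D (a x)) ^ 2 + (D : Oz) = 4 * a x * c1 := fun x hx =>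
    bref_spec D (a x) (b x) (c x) (hdisc x hx)
  have hf : ∀ x ∈ I, ∃ f : Oz, bref D (a x) - b x = 2 * f := by
    intro x hx
    obtain ⟨c1, hc1⟩ := hbr x hx
    exact par_Oz _ _ (a x * (c1 - c x)) (by linear_combination hc1 - hdisc x hx)
  choose! f hf using hf
  have hcardI : I.card = (n' + 1) * J := by rw [hI, card_product, card_range, card_range]
  have hgoal : (n' + 3 - 2) * J = I.card := by rw [hcardI]; rfl
  rw [hgoal]
  have hmul : ∀ x ∈ I, (GG (a x) (f x)).1 * (GG (a x) (f x)).2 = a x := fun x hx =>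
    (GG_spec (a x) (f x) (h5 x hx)).1
  set sg : ℕ × ℕ → ℝ := fun x => Complex.normSq (emb (s x) - om D B x.1 * emb (r x)) with hsg
  -- comparison of two indices with the same label
  have hcmp : ∀ x ∈ I, ∀ y ∈ I, GG (a x) (f x) = GG (a y) (f y) → x.1 ≤ y.1 →
      x.1 = y.1 ∧ a x = a y ∧ (sg x = sg y ∨ ∃ X : ℤ, (2 : ℤ) ^ (n' + 3 + 1) - 1 ≤ |X| ∧
        ((X : ℝ) ^ 2 * sg y ≤ sg x ∨ (X : ℝ) ^ 2 * sg x ≤ sg y)) := by
    intro x hx y hy hG hle
    have haa : a y = a x := by rw [← hmul x hx, ← hmul y hy, hG]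
    obtain ⟨c1, hc1⟩ := hbr x hx
    have hfy := hf y hy
    rw [haa] at hfy
    have hdy := hdisc y hy
    rw [haa] at hdy hG
    obtain ⟨m, hm⟩ := label_inj D hsq hDo' (a x) (bref D (a x)) (b x) (b y) (f x) (f y) c1 (c x)
      (c y) (h5 x hx) hc1 (hdisc x hx) hdy (hf x hx) hfy hG
    obtain ⟨d, hd⟩ : ∃ d, y.1 = x.1 + d := ⟨y.1 - x.1, by omega⟩
    have hy1 : y.1 < n' + 1 := by
      have := hy
      rw [hI, mem_product, mem_range] at this
      exact this.1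
    have hx1 : x.1 < n' + 1 := by
      have := hx
      rw [hI, mem_product, mem_range] at this
      exact this.1
    have g2 := h2 y hy
    have g3 := h3 y hy
    have g4 := h4 y hy
    have gC := hC y.1 hy1
    rw [hd] at g2 g3 g4 gC
    obtain ⟨hd0, hor⟩ := same_label (D : ℤ) v (n' + 3) hn hn3 hD0 h B hBo hB x.1 d (by omega)
      (C x.1) (C (x.1 + d)) (hC x.1 hx1) gC (s x) (t x) (r x) (u x) (s y) (t y) (r y) (u y) (a x)
      (b x) (c x) (a y) (b y) (c y) m (h1 x hx) (h1 y hy) (h2 x hx) (h3 x hx) (h4 x hx)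
      g2 g3 g4 haa (h5 x hx) hm
    have hxy1 : x.1 = y.1 := by omega
    refine ⟨hxy1, haa.symm, ?_⟩
    simp only [hsg]
    rw [← hxy1]
    exact hor
  -- sizes
  have hsize : ∀ x ∈ I, sg x * 4 ^ ((x.1 + 1) / 2 + x.2) ≤ 3 ∧
      ((a x).norm : ℝ) ≤ 6 * (1 + D) * (sg x * 4 ^ ((x.1 + 1) / 2 + x.2)) := by
    intro x hx
    refine ⟨h6 x hx, ?_⟩
    have := h7 x hx
    exact_mod_cast this
  have hbig : ∀ X : ℤ, (2 : ℤ) ^ (n' + 3 + 1) - 1 ≤ |X| →
      18 * (1 + (D : ℝ)) * 4 ^ (J - 1) < (X : ℝ) ^ 2 := by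
    intro X hX
    have e1 : (X : ℝ) ^ 2 = ((|X| : ℤ) : ℝ) ^ 2 := by
      rw [Int.cast_abs, sq_abs]
    have e2 : (2 : ℝ) ^ (n' + 3 + 1) - 1 ≤ ((|X| : ℤ) : ℝ) := by exact_mod_cast hX
    have e3 : (3 : ℝ) * (D + 1) ≤ 2 ^ (n' + 3) := by exact_mod_cast hsmall
    have e4 : (4 : ℝ) ^ (J - 1) = 2 ^ (n' + 2) := by
      obtain ⟨m, hm⟩ := hn
      have : J - 1 = m := by omega
      rw [this, show n' + 2 = 2 * m by omega, pow_mul]; norm_num
    have e5 : (1 : ℝ) ≤ 2 ^ n' := one_le_pow₀ (by norm_num)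
    have e6 : (2 : ℝ) ^ (n' + 3 + 1) = 16 * 2 ^ n' := by ring
    have e7 : (2 : ℝ) ^ (n' + 3) = 8 * 2 ^ n' := by ring
    have e8 : (2 : ℝ) ^ (n' + 2) = 4 * 2 ^ n' := by ring
    rw [e1, e4, e8]
    rw [e6] at e2
    rw [e7] at e3
    have e9 : (16 * (2 : ℝ) ^ n' - 1) ^ 2 ≤ ((|X| : ℤ) : ℝ) ^ 2 := by
      apply pow_le_pow_left₀ _ e2
      linarith
    nlinarith
  apply abstract_count I (fun x => GG (a x) (f x))
  · intro x hx
    have hm := hmul x hx
    constructor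
    · rintro h0; rw [h0, zero_mul] at hm; exact h5 x hx hm.symm
    · rintro h0; rw [h0, mul_zero] at hm; exact h5 x hx hm.symm
  · intro z S hSI hSz hSne
    -- all elements share the first coordinate and `a`
    have hpair : ∀ x ∈ S, ∀ y ∈ S, x.1 = y.1 ∧ a x = a y ∧
        (x.2 < y.2 → (4 : ℝ) ^ (y.2 - x.2) * ((a x).norm : ℝ) ≤ 18 * (1 + D)) := by
      intro x hx y hy
      have hxI := hSI hx
      have hyI := hSI hy
      have hG : GG (a x) (f x) = GG (a y) (f y) := (hSz x hx).trans (hSz y hy).symm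
      have key : x.1 = y.1 ∧ a x = a y ∧ (sg x = sg y ∨ ∃ X : ℤ,
          (2 : ℤ) ^ (n' + 3 + 1) - 1 ≤ |X| ∧
          ((X : ℝ) ^ 2 * sg y ≤ sg x ∨ (X : ℝ) ^ 2 * sg x ≤ sg y)) := by
        rcases le_total x.1 y.1 with hle | hle
        · exact hcmp x hxI y hyI hG hle
        · obtain ⟨k1, k2, k3⟩ := hcmp y hyI x hxI hG.symm hle
          refine ⟨k1.symm, k2.symm, ?_⟩
          rcases k3 with k3 | ⟨X, k3, k4 | k4⟩
          · exact Or.inl k3.symm
          · exact Or.inr ⟨X, k3, Or.inr k4⟩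
          · exact Or.inr ⟨X, k3, Or.inl k4⟩
      obtain ⟨k1, k2, k3⟩ := key
      refine ⟨k1, k2, fun hlt => ?_⟩
      obtain ⟨s1, s2⟩ := hsize x hxI
      obtain ⟨s3, s4⟩ := hsize y hyI
      obtain ⟨dl, hdl⟩ : ∃ dl, y.2 = x.2 + dl := ⟨y.2 - x.2, by omega⟩
      have hKy : (y.1 + 1) / 2 + y.2 = (x.1 + 1) / 2 + x.2 + dl := by rw [← k1]; omega
      rw [hKy, pow_add] at s3 s4
      have hdJ : dl ≤ J - 1 := by
        have := hyI
        rw [hI, mem_product, mem_range, mem_range] at this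
        omega
      set P : ℝ := 4 ^ ((x.1 + 1) / 2 + x.2) with hP
      set Q : ℝ := 4 ^ dl with hQ
      have hQ1 : 1 ≤ Q := one_le_pow₀ (by norm_num)
      have hP0 : 0 < P := by positivity
      have hQJ : Q ≤ 4 ^ (J - 1) := pow_le_pow_right₀ (by norm_num) hdJ
      have hsx : 0 ≤ sg x := Complex.normSq_nonneg _
      have hsy : 0 ≤ sg y := Complex.normSq_nonneg _
      have hNa : (1 : ℝ) ≤ ((a x).norm : ℝ) := by exact_mod_cast nm_pos (h5 x hxI)
      have hD1 : (0 : ℝ) < 1 + D := by positivity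
      have hdl' : y.2 - x.2 = dl := by omega
      rw [hdl']
      rcases k3 with k3 | ⟨X, hX, k4 | k4⟩
      · -- equal sizes
        calc Q * ((a x).norm : ℝ) ≤ Q * (6 * (1 + D) * (sg x * P)) :=
              mul_le_mul_of_nonneg_left s2 (by linarith)
          _ = 6 * (1 + D) * (sg y * (P * Q)) := by rw [k3]; ring
          _ ≤ 6 * (1 + D) * 3 := mul_le_mul_of_nonneg_left s3 (by positivity)
          _ = _ := by ring
      · exfalso
        have hb := hbig X hX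
        have e1 : (X : ℝ) ^ 2 * 1 ≤ (X : ℝ) ^ 2 * ((a y).norm : ℝ) := by
          apply mul_le_mul_of_nonneg_left _ (sq_nonneg _)
          exact_mod_cast nm_pos (h5 y hyI)
        have e2 : (X : ℝ) ^ 2 * ((a y).norm : ℝ) ≤ 18 * (1 + D) * 4 ^ (J - 1) := by
          calc (X : ℝ) ^ 2 * ((a y).norm : ℝ) ≤ (X : ℝ) ^ 2 * (6 * (1 + D) * (sg y * (P * Q))) :=
                mul_le_mul_of_nonneg_left s4 (sq_nonneg _)
            _ = 6 * (1 + D) * (((X : ℝ) ^ 2 * sg y) * P * Q) := by ring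
            _ ≤ 6 * (1 + D) * ((sg x) * P * Q) := by gcongr
            _ ≤ 6 * (1 + D) * (3 * Q) := by gcongr
            _ ≤ 6 * (1 + D) * (3 * 4 ^ (J - 1)) := by gcongr
            _ = _ := by ring
        linarith
      · exfalso
        have hb := hbig X hX
        have e1 : (X : ℝ) ^ 2 * 1 ≤ (X : ℝ) ^ 2 * ((a x).norm : ℝ) :=
          mul_le_mul_of_nonneg_left hNa (sq_nonneg _)
        have e2 : (X : ℝ) ^ 2 * ((a x).norm : ℝ) ≤ 18 * (1 + D) * 4 ^ (J - 1) := by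
          have hsyP : sg y * P ≤ 3 := by
            refine le_trans ?_ s3
            apply mul_le_mul_of_nonneg_left _ hsy
            nlinarith
          calc (X : ℝ) ^ 2 * ((a x).norm : ℝ) ≤ (X : ℝ) ^ 2 * (6 * (1 + D) * (sg x * P)) :=
                mul_le_mul_of_nonneg_left s2 (sq_nonneg _)
            _ = 6 * (1 + D) * (((X : ℝ) ^ 2 * sg x) * P) := by ring
            _ ≤ 6 * (1 + D) * ((sg y) * P) := by gcongr
            _ ≤ 6 * (1 + D) * 3 := by gcongr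
            _ = 18 * (1 + D) * 1 := by ring
            _ ≤ 18 * (1 + D) * 4 ^ (J - 1) := by
              apply mul_le_mul_of_nonneg_left _ (by positivity)
              exact one_le_pow₀ (by norm_num)
        linarith
    obtain ⟨x0, hx0⟩ := hSne
    have hx0I := hSI hx0
    have hzx0 : z.1 * z.2 = a x0 := by rw [← hmul x0 hx0I]; rw [hSz x0 hx0]
    -- 4^(F-1) N(a) ≤ 18 (D+1)
    have hF1 : 1 ≤ S.card := Finset.card_pos.2 ⟨x0, hx0⟩
    have hspread : (4 : ℝ) ^ (S.card - 1) * ((a x0).norm : ℝ) ≤ 18 * (1 + D) := by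
      have hinj : Set.InjOn (fun x : ℕ × ℕ => x.2) (S : Set (ℕ × ℕ)) := by
        intro x hx y hy hxy
        exact Prod.ext (hpair x hx y hy).1 hxy
      have hci : (S.image (fun x => x.2)).card = S.card := Finset.card_image_of_injOn hinj
      have hne : (S.image (fun x => x.2)).Nonempty := ⟨x0.2, mem_image_of_mem _ hx0⟩
      obtain ⟨x, hx, hxm⟩ := mem_image.1 ((S.image (fun x => x.2)).min'_mem hne)
      obtain ⟨y, hy, hym⟩ := mem_image.1 ((S.image (fun x => x.2)).max'_mem hne)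
      have hsub : S.image (fun x => x.2) ⊆ Icc x.2 y.2 := by
        intro w hw
        rw [mem_Icc, hxm, hym]
        exact ⟨Finset.min'_le _ _ hw, Finset.le_max' _ _ hw⟩
      have hcard2 := Finset.card_le_card hsub
      rw [hci, Nat.card_Icc] at hcard2
      have hax : a x0 = a x := (hpair x0 hx0 x hx).2.1
      rw [hax]
      have hpos : (0 : ℝ) ≤ ((a x).norm : ℝ) := by exact_mod_cast nm_nonneg (a x)
      rcases Nat.lt_or_ge x.2 y.2 with hlt | hge
      · refine le_trans ?_ ((hpair x hx y hy).2.2 hlt)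
        apply mul_le_mul_of_nonneg_right _ hpos
        exact pow_le_pow_right₀ (by norm_num) (by omega)
      · have : S.card - 1 = 0 := by omega
        rw [this, pow_zero, one_mul]
        obtain ⟨s1, s2⟩ := hsize x (hSI hx)
        calc ((a x).norm : ℝ) ≤ 6 * (1 + D) * (sg x * 4 ^ ((x.1 + 1) / 2 + x.2)) := s2
          _ ≤ 6 * (1 + D) * 3 := mul_le_mul_of_nonneg_left s1 (by positivity)
          _ = _ := by ring
    have hspreadN : (4 : ℤ) ^ (S.card - 1) * (a x0).norm ≤ 18 * (1 + D) := by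
      exact_mod_cast hspread
    rw [Nat.le_sqrt']
    have e1 : ((S.card * (mx z.1 * mx z.2) : ℕ) : ℤ) ^ 2 ≤ 18 * (1 + D) := by
      push_cast
      have q1 := mx_sq_le z.1
      have q2 := mx_sq_le z.2
      have q3 : ((mx z.1 : ℕ) : ℤ) ^ 2 * ((mx z.2 : ℕ) : ℤ) ^ 2 ≤ (a x0).norm := by
        rw [← hzx0, Zsqrtd.norm_mul]
        exact mul_le_mul q1 q2 (sq_nonneg _) (nm_nonneg _)
      have q4 : ((S.card : ℕ) : ℤ) ^ 2 ≤ 4 ^ (S.card - 1) := by
        exact_mod_cast sq_le_four_pow S.card hF1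
      calc ((S.card : ℤ) * ((mx z.1 : ℤ) * (mx z.2 : ℤ))) ^ 2 =
            ((S.card : ℕ) : ℤ) ^ 2 * (((mx z.1 : ℕ) : ℤ) ^ 2 * ((mx z.2 : ℕ) : ℤ) ^ 2) := by ring
        _ ≤ 4 ^ (S.card - 1) * (a x0).norm :=
            mul_le_mul q4 q3 (by positivity) (by positivity)
        _ ≤ _ := hspreadN
    have e2 : ((S.card * (mx z.1 * mx z.2)) ^ 2 : ℕ) ≤ 18 * (1 + D) := by exact_mod_cast e1
    rw [add_comm D 1]
    exact e2

end Run7.h246
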