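import Mathlib
import Pool.Agent.Run7.h246.MainB

set_option autoImplicit false

namespace Run7.h246.SqfreePart

open Finset

/-- Let `n ≥ 3` be odd and `2 ^ n - 1 = D * v ^ 2` with `D` squarefree.  Then
`(n - 2) (n + 1) ≤ 2304 (D + 1) (1 + log (18 (D + 1)) / 2)`. -/
theorem sqfree_part_bound : ∀ n D v : ℕ, Odd n → 3 ≤ n → Squarefree D → D * v ^ 2 = 2 ^ n - 1 →
    ((n : ℝ) - 2) * ((n : ℝ) + 1) ≤
      2304 * ((D : ℝ) + 1) * (1 + Real.log (18 * ((D : ℝ) + 1)) / 2) := by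
  intro n D v hn hn3 hsq hDv
  have hW1 : (1 : ℝ) ≤ 18 * ((D : ℝ) + 1) := by
    have : (0 : ℝ) ≤ D := Nat.cast_nonneg D
    linarith
  have hlog : 0 ≤ Real.log (18 * ((D : ℝ) + 1)) := Real.log_nonneg hW1
  have hD0 : (0 : ℝ) ≤ D := Nat.cast_nonneg D
  obtain ⟨m, hm⟩ := hn
  rcases le_or_gt (3 * (D + 1)) (2 ^ n) with hsmall | hbig
  · have h1 : 1 + (D : ℤ) * (v : ℤ) ^ 2 = 2 ^ n := by
      have h2 : 1 ≤ 2 ^ n := Nat.one_le_two_pow
      have h3 : 1 + D * v ^ 2 = 2 ^ n := by omega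
      exact_mod_cast h3
    have hmain := Run7.h246.main_bound D v n ⟨m, hm⟩ hn3 hsq h1 hsmall
    set A := Nat.sqrt (18 * (D + 1)) with hA
    rw [← Run7.h246.sum_divisors_le] at hmain
    have hreal : (((n - 2) * ((n + 1) / 2) : ℕ) : ℝ) ≤
        64 * (A : ℝ) * ((A : ℝ) * (1 + Real.log A)) := by
      have h4 : (((n - 2) * ((n + 1) / 2) : ℕ) : ℝ) ≤
        ((64 * A * ∑ a ∈ Ioc 0 A, a.divisors.card : ℕ) : ℝ) := by exact_mod_cast hmain
      refine h4.trans ?_
      have h5 := Run7.h246.sum_divisors_real A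
      rw [Nat.cast_mul, Nat.cast_mul]
      push_cast at h5 ⊢
      exact mul_le_mul_of_nonneg_left h5 (by positivity)
    have hcast : (((n - 2) * ((n + 1) / 2) : ℕ) : ℝ) = ((n : ℝ) - 2) * (((n : ℝ) + 1) / 2) := by
      have e1 : (n + 1) / 2 = m + 1 := by omega
      rw [e1, Nat.cast_mul, Nat.cast_sub (by omega), hm]
      push_cast
      ring
    have hAsq : (A : ℝ) ^ 2 ≤ 18 * ((D : ℝ) + 1) := by
      have : A ^ 2 ≤ 18 * (D + 1) := Nat.sqrt_le' _
      exact_mod_cast this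
    have hA1 : 1 ≤ A := by
      rw [hA, Nat.one_le_iff_ne_zero]
      intro h0
      rw [Nat.sqrt_eq_zero] at h0
      omega
    have hA1' : (1 : ℝ) ≤ A := by exact_mod_cast hA1
    have hlogA : Real.log A ≤ Real.log (18 * ((D : ℝ) + 1)) / 2 := by
      have h6 : Real.log ((A : ℝ) ^ 2) ≤ Real.log (18 * ((D : ℝ) + 1)) :=
        Real.log_le_log (by positivity) hAsq
      rw [Real.log_pow] at h6
      push_cast at h6
      linarith
    have hlogA0 : 0 ≤ Real.log A := Real.log_nonneg hA1'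
    rw [hcast] at hreal
    have h7 : 64 * (A : ℝ) * ((A : ℝ) * (1 + Real.log A)) ≤
        64 * (18 * ((D : ℝ) + 1)) * (1 + Real.log (18 * ((D : ℝ) + 1)) / 2) := by
      calc 64 * (A : ℝ) * ((A : ℝ) * (1 + Real.log A)) = 64 * (A : ℝ) ^ 2 * (1 + Real.log A) := by
            ring
        _ ≤ 64 * (18 * ((D : ℝ) + 1)) * (1 + Real.log (18 * ((D : ℝ) + 1)) / 2) := by
            apply mul_le_mul
            · linarith
            · linarith
            · linarith
            · linarith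
    nlinarith
  · have h1 : (2 : ℝ) ^ n < 3 * ((D : ℝ) + 1) := by exact_mod_cast hbig
    have h2 : (n : ℝ) < 2 ^ n := by exact_mod_cast Nat.lt_two_pow_self
    have h3 : (n : ℝ) ^ 2 ≤ 2 * 2 ^ n := by
      have : ∀ k : ℕ, 3 ≤ k → k ^ 2 ≤ 2 * 2 ^ k := by
        intro k hk
        induction k, hk using Nat.le_induction with
        | base => norm_num
        | succ k hk ih =>
          rw [pow_succ 2 k]
          nlinarith
      exact_mod_cast this n hn3
    have h4 : (0 : ℝ) ≤ n := Nat.cast_nonneg n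
    nlinarith

end Run7.h246.SqfreePart
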